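import Mathlib

/-!
Seven anticommuting square roots of `-1`.
-/

set_option autoImplicit false
set_option linter.unusedSimpArgs false

noncomputable section

namespace Pool.Agent.TH874.SD

section

variable {R : Type} [Ring R] {e1 e2 e3 e4 e5 e6 e7 : R}

/-- seven anticommuting square roots of `-1` -/
structure Seven (e1 e2 e3 e4 e5 e6 e7 : R) : Prop where
  s1 : e1 * e1 = -1
  s2 : e2 * e2 = -1
  s3 : e3 * e3 = -1
  s4 : e4 * e4 = -1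
  s5 : e5 * e5 = -1
  s6 : e6 * e6 = -1
  s7 : e7 * e7 = -1
  a12 : e2 * e1 = -(e1 * e2)
  a13 : e3 * e1 = -(e1 * e3)
  a14 : e4 * e1 = -(e1 * e4)
  a15 : e5 * e1 = -(e1 * e5)
  a16 : e6 * e1 = -(e1 * e6)
  a17 : e7 * e1 = -(e1 * e7)
  a23 : e3 * e2 = -(e2 * e3)
  a24 : e4 * e2 = -(e2 * e4)
  a25 : e5 * e2 = -(e2 * e5)
  a26 : e6 * e2 = -(e2 * e6)
  a27 : e7 * e2 = -(e2 * e7)
  a34 : e4 * e3 = -(e3 * e4)
  a35 : e5 * e3 = -(e3 * e5)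
  a36 : e6 * e3 = -(e3 * e6)
  a37 : e7 * e3 = -(e3 * e7)
  a45 : e5 * e4 = -(e4 * e5)
  a46 : e6 * e4 = -(e4 * e6)
  a47 : e7 * e4 = -(e4 * e7)
  a56 : e6 * e5 = -(e5 * e6)
  a57 : e7 * e5 = -(e5 * e7)
  a67 : e7 * e6 = -(e6 * e7)

theorem as_of_s {e x : R} (h : e * e = -1) : e * (e * x) = -x := by
  rw [← mul_assoc, h, neg_one_mul]

theorem aa_of_a {e f x : R} (h : f * e = -(e * f)) : f * (e * x) = -(e * (f * x)) := by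
  rw [← mul_assoc, h, neg_mul, mul_assoc]

theorem Seven.om1 (h : Seven e1 e2 e3 e4 e5 e6 e7) :
    e1 * (e1 * (e2 * (e3 * (e4 * (e5 * (e6 * e7)))))) = (e1 * (e2 * (e3 * (e4 * (e5 * (e6 * e7)))))) * e1 := by
  simp only [mul_add, add_mul, mul_sub, sub_mul, mul_assoc, mul_neg, neg_mul, neg_neg, mul_one, one_mul,
    neg_inj, h.s1, h.s2, h.s3, h.s4, h.s5, h.s6, h.s7, as_of_s h.s1, as_of_s h.s2, as_of_s h.s3,
    as_of_s h.s4, as_of_s h.s5, as_of_s h.s6, as_of_s h.s7, h.a12, h.a13, h.a14, h.a15, h.a16,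
    h.a17, h.a23, h.a24, h.a25, h.a26, h.a27, h.a34, h.a35, h.a36, h.a37, h.a45, h.a46, h.a47,
    h.a56, h.a57, h.a67, aa_of_a h.a12, aa_of_a h.a13, aa_of_a h.a14, aa_of_a h.a15, aa_of_a h.a16,
    aa_of_a h.a17, aa_of_a h.a23, aa_of_a h.a24, aa_of_a h.a25, aa_of_a h.a26, aa_of_a h.a27,
    aa_of_a h.a34, aa_of_a h.a35, aa_of_a h.a36, aa_of_a h.a37, aa_of_a h.a45, aa_of_a h.a46,
    aa_of_a h.a47, aa_of_a h.a56, aa_of_a h.a57, aa_of_a h.a67]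

theorem Seven.om2 (h : Seven e1 e2 e3 e4 e5 e6 e7) :
    e2 * (e1 * (e2 * (e3 * (e4 * (e5 * (e6 * e7)))))) = (e1 * (e2 * (e3 * (e4 * (e5 * (e6 * e7)))))) * e2 := by
  simp only [mul_add, add_mul, mul_sub, sub_mul, mul_assoc, mul_neg, neg_mul, neg_neg, mul_one, one_mul,
    neg_inj, h.s1, h.s2, h.s3, h.s4, h.s5, h.s6, h.s7, as_of_s h.s1, as_of_s h.s2, as_of_s h.s3,
    as_of_s h.s4, as_of_s h.s5, as_of_s h.s6, as_of_s h.s7, h.a12, h.a13, h.a14, h.a15, h.a16,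
    h.a17, h.a23, h.a24, h.a25, h.a26, h.a27, h.a34, h.a35, h.a36, h.a37, h.a45, h.a46, h.a47,
    h.a56, h.a57, h.a67, aa_of_a h.a12, aa_of_a h.a13, aa_of_a h.a14, aa_of_a h.a15, aa_of_a h.a16,
    aa_of_a h.a17, aa_of_a h.a23, aa_of_a h.a24, aa_of_a h.a25, aa_of_a h.a26, aa_of_a h.a27,
    aa_of_a h.a34, aa_of_a h.a35, aa_of_a h.a36, aa_of_a h.a37, aa_of_a h.a45, aa_of_a h.a46,
    aa_of_a h.a47, aa_of_a h.a56, aa_of_a h.a57, aa_of_a h.a67]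

theorem Seven.om3 (h : Seven e1 e2 e3 e4 e5 e6 e7) :
    e3 * (e1 * (e2 * (e3 * (e4 * (e5 * (e6 * e7)))))) = (e1 * (e2 * (e3 * (e4 * (e5 * (e6 * e7)))))) * e3 := by
  simp only [mul_add, add_mul, mul_sub, sub_mul, mul_assoc, mul_neg, neg_mul, neg_neg, mul_one, one_mul,
    neg_inj, h.s1, h.s2, h.s3, h.s4, h.s5, h.s6, h.s7, as_of_s h.s1, as_of_s h.s2, as_of_s h.s3,
    as_of_s h.s4, as_of_s h.s5, as_of_s h.s6, as_of_s h.s7, h.a12, h.a13, h.a14, h.a15, h.a16,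
    h.a17, h.a23, h.a24, h.a25, h.a26, h.a27, h.a34, h.a35, h.a36, h.a37, h.a45, h.a46, h.a47,
    h.a56, h.a57, h.a67, aa_of_a h.a12, aa_of_a h.a13, aa_of_a h.a14, aa_of_a h.a15, aa_of_a h.a16,
    aa_of_a h.a17, aa_of_a h.a23, aa_of_a h.a24, aa_of_a h.a25, aa_of_a h.a26, aa_of_a h.a27,
    aa_of_a h.a34, aa_of_a h.a35, aa_of_a h.a36, aa_of_a h.a37, aa_of_a h.a45, aa_of_a h.a46,
    aa_of_a h.a47, aa_of_a h.a56, aa_of_a h.a57, aa_of_a h.a67]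

theorem Seven.om4 (h : Seven e1 e2 e3 e4 e5 e6 e7) :
    e4 * (e1 * (e2 * (e3 * (e4 * (e5 * (e6 * e7)))))) = (e1 * (e2 * (e3 * (e4 * (e5 * (e6 * e7)))))) * e4 := by
  simp only [mul_add, add_mul, mul_sub, sub_mul, mul_assoc, mul_neg, neg_mul, neg_neg, mul_one, one_mul,
    neg_inj, h.s1, h.s2, h.s3, h.s4, h.s5, h.s6, h.s7, as_of_s h.s1, as_of_s h.s2, as_of_s h.s3,
    as_of_s h.s4, as_of_s h.s5, as_of_s h.s6, as_of_s h.s7, h.a12, h.a13, h.a14, h.a15, h.a16,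
    h.a17, h.a23, h.a24, h.a25, h.a26, h.a27, h.a34, h.a35, h.a36, h.a37, h.a45, h.a46, h.a47,
    h.a56, h.a57, h.a67, aa_of_a h.a12, aa_of_a h.a13, aa_of_a h.a14, aa_of_a h.a15, aa_of_a h.a16,
    aa_of_a h.a17, aa_of_a h.a23, aa_of_a h.a24, aa_of_a h.a25, aa_of_a h.a26, aa_of_a h.a27,
    aa_of_a h.a34, aa_of_a h.a35, aa_of_a h.a36, aa_of_a h.a37, aa_of_a h.a45, aa_of_a h.a46,
    aa_of_a h.a47, aa_of_a h.a56, aa_of_a h.a57, aa_of_a h.a67]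

theorem Seven.om5 (h : Seven e1 e2 e3 e4 e5 e6 e7) :
    e5 * (e1 * (e2 * (e3 * (e4 * (e5 * (e6 * e7)))))) = (e1 * (e2 * (e3 * (e4 * (e5 * (e6 * e7)))))) * e5 := by
  simp only [mul_add, add_mul, mul_sub, sub_mul, mul_assoc, mul_neg, neg_mul, neg_neg, mul_one, one_mul,
    neg_inj, h.s1, h.s2, h.s3, h.s4, h.s5, h.s6, h.s7, as_of_s h.s1, as_of_s h.s2, as_of_s h.s3,
    as_of_s h.s4, as_of_s h.s5, as_of_s h.s6, as_of_s h.s7, h.a12, h.a13, h.a14, h.a15, h.a16,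
    h.a17, h.a23, h.a24, h.a25, h.a26, h.a27, h.a34, h.a35, h.a36, h.a37, h.a45, h.a46, h.a47,
    h.a56, h.a57, h.a67, aa_of_a h.a12, aa_of_a h.a13, aa_of_a h.a14, aa_of_a h.a15, aa_of_a h.a16,
    aa_of_a h.a17, aa_of_a h.a23, aa_of_a h.a24, aa_of_a h.a25, aa_of_a h.a26, aa_of_a h.a27,
    aa_of_a h.a34, aa_of_a h.a35, aa_of_a h.a36, aa_of_a h.a37, aa_of_a h.a45, aa_of_a h.a46,
    aa_of_a h.a47, aa_of_a h.a56, aa_of_a h.a57, aa_of_a h.a67]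

theorem Seven.om6 (h : Seven e1 e2 e3 e4 e5 e6 e7) :
    e6 * (e1 * (e2 * (e3 * (e4 * (e5 * (e6 * e7)))))) = (e1 * (e2 * (e3 * (e4 * (e5 * (e6 * e7)))))) * e6 := by
  simp only [mul_add, add_mul, mul_sub, sub_mul, mul_assoc, mul_neg, neg_mul, neg_neg, mul_one, one_mul,
    neg_inj, h.s1, h.s2, h.s3, h.s4, h.s5, h.s6, h.s7, as_of_s h.s1, as_of_s h.s2, as_of_s h.s3,
    as_of_s h.s4, as_of_s h.s5, as_of_s h.s6, as_of_s h.s7, h.a12, h.a13, h.a14, h.a15, h.a16,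
    h.a17, h.a23, h.a24, h.a25, h.a26, h.a27, h.a34, h.a35, h.a36, h.a37, h.a45, h.a46, h.a47,
    h.a56, h.a57, h.a67, aa_of_a h.a12, aa_of_a h.a13, aa_of_a h.a14, aa_of_a h.a15, aa_of_a h.a16,
    aa_of_a h.a17, aa_of_a h.a23, aa_of_a h.a24, aa_of_a h.a25, aa_of_a h.a26, aa_of_a h.a27,
    aa_of_a h.a34, aa_of_a h.a35, aa_of_a h.a36, aa_of_a h.a37, aa_of_a h.a45, aa_of_a h.a46,
    aa_of_a h.a47, aa_of_a h.a56, aa_of_a h.a57, aa_of_a h.a67]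

theorem Seven.om7 (h : Seven e1 e2 e3 e4 e5 e6 e7) :
    e7 * (e1 * (e2 * (e3 * (e4 * (e5 * (e6 * e7)))))) = (e1 * (e2 * (e3 * (e4 * (e5 * (e6 * e7)))))) * e7 := by
  simp only [mul_add, add_mul, mul_sub, sub_mul, mul_assoc, mul_neg, neg_mul, neg_neg, mul_one, one_mul,
    neg_inj, h.s1, h.s2, h.s3, h.s4, h.s5, h.s6, h.s7, as_of_s h.s1, as_of_s h.s2, as_of_s h.s3,
    as_of_s h.s4, as_of_s h.s5, as_of_s h.s6, as_of_s h.s7, h.a12, h.a13, h.a14, h.a15, h.a16,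
    h.a17, h.a23, h.a24, h.a25, h.a26, h.a27, h.a34, h.a35, h.a36, h.a37, h.a45, h.a46, h.a47,
    h.a56, h.a57, h.a67, aa_of_a h.a12, aa_of_a h.a13, aa_of_a h.a14, aa_of_a h.a15, aa_of_a h.a16,
    aa_of_a h.a17, aa_of_a h.a23, aa_of_a h.a24, aa_of_a h.a25, aa_of_a h.a26, aa_of_a h.a27,
    aa_of_a h.a34, aa_of_a h.a35, aa_of_a h.a36, aa_of_a h.a37, aa_of_a h.a45, aa_of_a h.a46,
    aa_of_a h.a47, aa_of_a h.a56, aa_of_a h.a57, aa_of_a h.a67]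

theorem Seven.omsq (h : Seven e1 e2 e3 e4 e5 e6 e7) :
    (e1 * (e2 * (e3 * (e4 * (e5 * (e6 * e7)))))) * (e1 * (e2 * (e3 * (e4 * (e5 * (e6 * e7)))))) = 1 := by
  simp only [mul_add, add_mul, mul_sub, sub_mul, mul_assoc, mul_neg, neg_mul, neg_neg, mul_one, one_mul,
    neg_inj, h.s1, h.s2, h.s3, h.s4, h.s5, h.s6, h.s7, as_of_s h.s1, as_of_s h.s2, as_of_s h.s3,
    as_of_s h.s4, as_of_s h.s5, as_of_s h.s6, as_of_s h.s7, h.a12, h.a13, h.a14, h.a15, h.a16,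
    h.a17, h.a23, h.a24, h.a25, h.a26, h.a27, h.a34, h.a35, h.a36, h.a37, h.a45, h.a46, h.a47,
    h.a56, h.a57, h.a67, aa_of_a h.a12, aa_of_a h.a13, aa_of_a h.a14, aa_of_a h.a15, aa_of_a h.a16,
    aa_of_a h.a17, aa_of_a h.a23, aa_of_a h.a24, aa_of_a h.a25, aa_of_a h.a26, aa_of_a h.a27,
    aa_of_a h.a34, aa_of_a h.a35, aa_of_a h.a36, aa_of_a h.a37, aa_of_a h.a45, aa_of_a h.a46,
    aa_of_a h.a47, aa_of_a h.a56, aa_of_a h.a57, aa_of_a h.a67]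

theorem Seven.e67 (h : Seven e1 e2 e3 e4 e5 e6 e7) (H : e1 * (e2 * (e3 * (e4 * (e5 * (e6 * e7))))) = -1) :
    e6 * e7 = e1 * (e2 * (e3 * (e4 * e5))) := by
  have h1 : (e1 * (e2 * (e3 * (e4 * e5)))) * (e1 * (e2 * (e3 * (e4 * (e5 * (e6 * e7)))))) = -(e6 * e7) := by
    simp only [mul_add, add_mul, mul_sub, sub_mul, mul_assoc, mul_neg, neg_mul, neg_neg, mul_one, one_mul,
    neg_inj, h.s1, h.s2, h.s3, h.s4, h.s5, h.s6, h.s7, as_of_s h.s1, as_of_s h.s2, as_of_s h.s3,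
    as_of_s h.s4, as_of_s h.s5, as_of_s h.s6, as_of_s h.s7, h.a12, h.a13, h.a14, h.a15, h.a16,
    h.a17, h.a23, h.a24, h.a25, h.a26, h.a27, h.a34, h.a35, h.a36, h.a37, h.a45, h.a46, h.a47,
    h.a56, h.a57, h.a67, aa_of_a h.a12, aa_of_a h.a13, aa_of_a h.a14, aa_of_a h.a15, aa_of_a h.a16,
    aa_of_a h.a17, aa_of_a h.a23, aa_of_a h.a24, aa_of_a h.a25, aa_of_a h.a26, aa_of_a h.a27,
    aa_of_a h.a34, aa_of_a h.a35, aa_of_a h.a36, aa_of_a h.a37, aa_of_a h.a45, aa_of_a h.a46,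
    aa_of_a h.a47, aa_of_a h.a56, aa_of_a h.a57, aa_of_a h.a67]
  rw [H, mul_neg, mul_one, neg_inj] at h1
  exact h1.symm

/-- four times the projection -/
def pp (e1 e2 e3 e4 e5 : R) : R :=
  1 + e1 * (e2 * e3) + e1 * (e4 * e5) - e2 * (e3 * (e4 * e5))

/-- four times the complex structure on the image of the projection -/
def bb (e1 e2 e3 e4 e5 : R) : R :=
  e1 - e2 * e3 - e4 * e5 - e1 * (e2 * (e3 * (e4 * e5)))

theorem Seven.e1p (h : Seven e1 e2 e3 e4 e5 e6 e7) :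
    e1 * pp e1 e2 e3 e4 e5 = bb e1 e2 e3 e4 e5 := by
  unfold pp bb
  simp only [mul_add, add_mul, mul_sub, sub_mul, mul_assoc, mul_neg, neg_mul, neg_neg, mul_one, one_mul,
    neg_inj, h.s1, h.s2, h.s3, h.s4, h.s5, h.s6, h.s7, as_of_s h.s1, as_of_s h.s2, as_of_s h.s3,
    as_of_s h.s4, as_of_s h.s5, as_of_s h.s6, as_of_s h.s7, h.a12, h.a13, h.a14, h.a15, h.a16,
    h.a17, h.a23, h.a24, h.a25, h.a26, h.a27, h.a34, h.a35, h.a36, h.a37, h.a45, h.a46, h.a47,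
    h.a56, h.a57, h.a67, aa_of_a h.a12, aa_of_a h.a13, aa_of_a h.a14, aa_of_a h.a15, aa_of_a h.a16,
    aa_of_a h.a17, aa_of_a h.a23, aa_of_a h.a24, aa_of_a h.a25, aa_of_a h.a26, aa_of_a h.a27,
    aa_of_a h.a34, aa_of_a h.a35, aa_of_a h.a36, aa_of_a h.a37, aa_of_a h.a45, aa_of_a h.a46,
    aa_of_a h.a47, aa_of_a h.a56, aa_of_a h.a57, aa_of_a h.a67]
  abel

theorem Seven.e23p (h : Seven e1 e2 e3 e4 e5 e6 e7) :
    -(e2 * e3) * pp e1 e2 e3 e4 e5 = bb e1 e2 e3 e4 e5 := by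
  unfold pp bb
  simp only [mul_add, add_mul, mul_sub, sub_mul, mul_assoc, mul_neg, neg_mul, neg_neg, mul_one, one_mul,
    neg_inj, h.s1, h.s2, h.s3, h.s4, h.s5, h.s6, h.s7, as_of_s h.s1, as_of_s h.s2, as_of_s h.s3,
    as_of_s h.s4, as_of_s h.s5, as_of_s h.s6, as_of_s h.s7, h.a12, h.a13, h.a14, h.a15, h.a16,
    h.a17, h.a23, h.a24, h.a25, h.a26, h.a27, h.a34, h.a35, h.a36, h.a37, h.a45, h.a46, h.a47,
    h.a56, h.a57, h.a67, aa_of_a h.a12, aa_of_a h.a13, aa_of_a h.a14, aa_of_a h.a15, aa_of_a h.a16,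
    aa_of_a h.a17, aa_of_a h.a23, aa_of_a h.a24, aa_of_a h.a25, aa_of_a h.a26, aa_of_a h.a27,
    aa_of_a h.a34, aa_of_a h.a35, aa_of_a h.a36, aa_of_a h.a37, aa_of_a h.a45, aa_of_a h.a46,
    aa_of_a h.a47, aa_of_a h.a56, aa_of_a h.a57, aa_of_a h.a67]
  abel

theorem Seven.e45p (h : Seven e1 e2 e3 e4 e5 e6 e7) :
    -(e4 * e5) * pp e1 e2 e3 e4 e5 = bb e1 e2 e3 e4 e5 := by
  unfold pp bb
  simp only [mul_add, add_mul, mul_sub, sub_mul, mul_assoc, mul_neg, neg_mul, neg_neg, mul_one, one_mul,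
    neg_inj, h.s1, h.s2, h.s3, h.s4, h.s5, h.s6, h.s7, as_of_s h.s1, as_of_s h.s2, as_of_s h.s3,
    as_of_s h.s4, as_of_s h.s5, as_of_s h.s6, as_of_s h.s7, h.a12, h.a13, h.a14, h.a15, h.a16,
    h.a17, h.a23, h.a24, h.a25, h.a26, h.a27, h.a34, h.a35, h.a36, h.a37, h.a45, h.a46, h.a47,
    h.a56, h.a57, h.a67, aa_of_a h.a12, aa_of_a h.a13, aa_of_a h.a14, aa_of_a h.a15, aa_of_a h.a16,
    aa_of_a h.a17, aa_of_a h.a23, aa_of_a h.a24, aa_of_a h.a25, aa_of_a h.a26, aa_of_a h.a27,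
    aa_of_a h.a34, aa_of_a h.a35, aa_of_a h.a36, aa_of_a h.a37, aa_of_a h.a45, aa_of_a h.a46,
    aa_of_a h.a47, aa_of_a h.a56, aa_of_a h.a57, aa_of_a h.a67]
  abel

theorem Seven.e67p (h : Seven e1 e2 e3 e4 e5 e6 e7) (H : e1 * (e2 * (e3 * (e4 * (e5 * (e6 * e7))))) = -1) :
    -(e6 * e7) * pp e1 e2 e3 e4 e5 = bb e1 e2 e3 e4 e5 := by
  rw [h.e67 H]
  unfold pp bb
  simp only [mul_add, add_mul, mul_sub, sub_mul, mul_assoc, mul_neg, neg_mul, neg_neg, mul_one, one_mul,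
    neg_inj, h.s1, h.s2, h.s3, h.s4, h.s5, h.s6, h.s7, as_of_s h.s1, as_of_s h.s2, as_of_s h.s3,
    as_of_s h.s4, as_of_s h.s5, as_of_s h.s6, as_of_s h.s7, h.a12, h.a13, h.a14, h.a15, h.a16,
    h.a17, h.a23, h.a24, h.a25, h.a26, h.a27, h.a34, h.a35, h.a36, h.a37, h.a45, h.a46, h.a47,
    h.a56, h.a57, h.a67, aa_of_a h.a12, aa_of_a h.a13, aa_of_a h.a14, aa_of_a h.a15, aa_of_a h.a16,
    aa_of_a h.a17, aa_of_a h.a23, aa_of_a h.a24, aa_of_a h.a25, aa_of_a h.a26, aa_of_a h.a27,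
    aa_of_a h.a34, aa_of_a h.a35, aa_of_a h.a36, aa_of_a h.a37, aa_of_a h.a45, aa_of_a h.a46,
    aa_of_a h.a47, aa_of_a h.a56, aa_of_a h.a57, aa_of_a h.a67]
  abel

theorem Seven.pp2 (h : Seven e1 e2 e3 e4 e5 e6 e7) :
    pp e1 e2 e3 e4 e5 * pp e1 e2 e3 e4 e5 = 4 * pp e1 e2 e3 e4 e5 := by
  unfold pp
  rw [show (4 : R) = 1 + 1 + 1 + 1 by norm_num]
  simp only [mul_add, add_mul, mul_sub, sub_mul, mul_assoc, mul_neg, neg_mul, neg_neg, mul_one, one_mul,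
    neg_inj, h.s1, h.s2, h.s3, h.s4, h.s5, h.s6, h.s7, as_of_s h.s1, as_of_s h.s2, as_of_s h.s3,
    as_of_s h.s4, as_of_s h.s5, as_of_s h.s6, as_of_s h.s7, h.a12, h.a13, h.a14, h.a15, h.a16,
    h.a17, h.a23, h.a24, h.a25, h.a26, h.a27, h.a34, h.a35, h.a36, h.a37, h.a45, h.a46, h.a47,
    h.a56, h.a57, h.a67, aa_of_a h.a12, aa_of_a h.a13, aa_of_a h.a14, aa_of_a h.a15, aa_of_a h.a16,
    aa_of_a h.a17, aa_of_a h.a23, aa_of_a h.a24, aa_of_a h.a25, aa_of_a h.a26, aa_of_a h.a27,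
    aa_of_a h.a34, aa_of_a h.a35, aa_of_a h.a36, aa_of_a h.a37, aa_of_a h.a45, aa_of_a h.a46,
    aa_of_a h.a47, aa_of_a h.a56, aa_of_a h.a57, aa_of_a h.a67]
  abel

theorem Seven.bb2 (h : Seven e1 e2 e3 e4 e5 e6 e7) :
    bb e1 e2 e3 e4 e5 * bb e1 e2 e3 e4 e5 = -(4 * pp e1 e2 e3 e4 e5) := by
  unfold pp bb
  rw [show (4 : R) = 1 + 1 + 1 + 1 by norm_num]
  simp only [mul_add, add_mul, mul_sub, sub_mul, mul_assoc, mul_neg, neg_mul, neg_neg, mul_one, one_mul,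
    neg_inj, h.s1, h.s2, h.s3, h.s4, h.s5, h.s6, h.s7, as_of_s h.s1, as_of_s h.s2, as_of_s h.s3,
    as_of_s h.s4, as_of_s h.s5, as_of_s h.s6, as_of_s h.s7, h.a12, h.a13, h.a14, h.a15, h.a16,
    h.a17, h.a23, h.a24, h.a25, h.a26, h.a27, h.a34, h.a35, h.a36, h.a37, h.a45, h.a46, h.a47,
    h.a56, h.a57, h.a67, aa_of_a h.a12, aa_of_a h.a13, aa_of_a h.a14, aa_of_a h.a15, aa_of_a h.a16,
    aa_of_a h.a17, aa_of_a h.a23, aa_of_a h.a24, aa_of_a h.a25, aa_of_a h.a26, aa_of_a h.a27,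
    aa_of_a h.a34, aa_of_a h.a35, aa_of_a h.a36, aa_of_a h.a37, aa_of_a h.a45, aa_of_a h.a46,
    aa_of_a h.a47, aa_of_a h.a56, aa_of_a h.a57, aa_of_a h.a67]
  abel

end

end Pool.Agent.TH874.SD
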