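import Pool.Agent.TH874.SD.Oct
import Pool.Agent.TH874.SD.Seven

/-!
The action of a complex structure of `ℝ⁸` on the half spin representation.
-/

set_option autoImplicit false
set_option linter.unusedSimpArgs false
set_option linter.unusedSectionVars false

noncomputable section

namespace Pool.Agent.TH874.SD

open Matrix

theorem dot_mulVec (A B : M8) (x y : R8) : (A *ᵥ x) ⬝ᵥ (B *ᵥ y) = x ⬝ᵥ ((Aᵀ * B) *ᵥ y) := by
  rw [← Matrix.mulVec_mulVec, Matrix.dotProduct_mulVec x Aᵀ, Matrix.vecMul_transpose]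

/-- the standard basis -/
abbrev eb (i : Fin 8) : R8 := Pi.single i 1

theorem eb_dot (i j : Fin 8) : eb i ⬝ᵥ eb j = if i = j then 1 else 0 := by
  rw [single_one_dotProduct]
  exact Pi.single_apply _ _ _

section

variable {c : R8 →ₗ[ℝ] M8} (hc : IsComp c)

include hc

theorem IsComp.star (u v x y : R8) : (c u *ᵥ x) ⬝ᵥ (c v *ᵥ y) + (c v *ᵥ x) ⬝ᵥ (c u *ᵥ y) =
    2 * (u ⬝ᵥ v) * (x ⬝ᵥ y) := by
  rw [dot_mulVec, dot_mulVec, ← dotProduct_add, ← Matrix.add_mulVec, hc u v, Matrix.smul_mulVec,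
    Matrix.one_mulVec, dotProduct_smul, smul_eq_mul]

theorem IsComp.self (u : R8) : (c u)ᵀ * c u = (u ⬝ᵥ u) • (1 : M8) := by
  have h := hc u u
  rw [← two_smul ℝ ((c u)ᵀ * c u), mul_smul] at h
  exact smul_right_injective M8 (two_ne_zero (α := ℝ)) h

theorem IsComp.norm (u x : R8) : (c u *ᵥ x) ⬝ᵥ (c u *ᵥ x) = (u ⬝ᵥ u) * (x ⬝ᵥ x) := by
  rw [dot_mulVec, hc.self, Matrix.smul_mulVec, Matrix.one_mulVec, dotProduct_smul, smul_eq_mul]

theorem IsComp.tt (i : Fin 8) : (c (eb i))ᵀ * c (eb i) = 1 := by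
  rw [hc.self, eb_dot, if_pos rfl, one_smul]

theorem IsComp.tt' (i : Fin 8) : c (eb i) * (c (eb i))ᵀ = 1 :=
  mul_eq_one_comm.1 (hc.tt i)

theorem IsComp.anti {i j : Fin 8} (h : i ≠ j) : (c (eb i))ᵀ * c (eb j) =
    -((c (eb j))ᵀ * c (eb i)) := by
  have h1 := hc (eb i) (eb j)
  rw [eb_dot, if_neg h, mul_zero, zero_smul] at h1
  exact eq_neg_of_add_eq_zero_left h1

theorem IsComp.anti' {i j : Fin 8} (h : i ≠ j) : c (eb i) * (c (eb j))ᵀ =
    -(c (eb j) * (c (eb i))ᵀ) := by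
  have h1 : c (eb j) = -(c (eb i) * ((c (eb j))ᵀ * c (eb i))) := by
    have h2 := hc.anti h
    have h3 : c (eb i) * ((c (eb i))ᵀ * c (eb j)) = c (eb j) := by
      rw [← mul_assoc, hc.tt', one_mul]
    rw [← h3]
    conv_lhs => rw [h2]
    rw [mul_neg, h3]
  have h4 : c (eb j) * (c (eb i))ᵀ = -(c (eb i) * (c (eb j))ᵀ) := by
    conv_lhs => rw [h1]
    rw [neg_mul, mul_assoc, mul_assoc, hc.tt', mul_one]
  rw [h4, neg_neg]

/-- `Gᵢᵀ Gⱼ` in terms of `G₀ᵀ Gᵢ` -/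
theorem IsComp.prod {i j : Fin 8} (hi : i ≠ 0) :
    ((c (eb 0))ᵀ * c (eb i)) * ((c (eb 0))ᵀ * c (eb j)) = -((c (eb i))ᵀ * c (eb j)) := by
  have h1 : ((c (eb 0))ᵀ * c (eb i)) * ((c (eb 0))ᵀ * c (eb j)) =
      (c (eb 0))ᵀ * (c (eb i) * (c (eb 0))ᵀ) * c (eb j) := by
    simp only [mul_assoc]
  rw [h1, hc.anti' hi, mul_neg, neg_mul, ← mul_assoc (c (eb 0))ᵀ, hc.tt, one_mul]

theorem IsComp.seven : Seven ((c (eb 0))ᵀ * c (eb 1)) ((c (eb 0))ᵀ * c (eb 2))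
    ((c (eb 0))ᵀ * c (eb 3)) ((c (eb 0))ᵀ * c (eb 4)) ((c (eb 0))ᵀ * c (eb 5))
    ((c (eb 0))ᵀ * c (eb 6)) ((c (eb 0))ᵀ * c (eb 7)) := by
  constructor
  all_goals
    first
    | rw [hc.prod (by decide), hc.tt]
    | rw [hc.prod (by decide), hc.prod (by decide), hc.anti (by decide)]

theorem IsComp.tr {i : Fin 8} (hi : i ≠ 0) :
    ((c (eb 0))ᵀ * c (eb i))ᵀ = -((c (eb 0))ᵀ * c (eb i)) := by
  rw [Matrix.transpose_mul, Matrix.transpose_transpose, hc.anti hi]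

theorem IsComp.prod' {i j : Fin 8} (hi : i ≠ 0) :
    (c (eb i))ᵀ * c (eb j) = -(((c (eb 0))ᵀ * c (eb i)) * ((c (eb 0))ᵀ * c (eb j))) := by
  rw [hc.prod hi, neg_neg]

end

/-- the product of all seven generators -/
def om (c : R8 →ₗ[ℝ] M8) : M8 :=
  ((c (eb 0))ᵀ * c (eb 1)) * (((c (eb 0))ᵀ * c (eb 2)) * (((c (eb 0))ᵀ * c (eb 3)) *
    (((c (eb 0))ᵀ * c (eb 4)) * (((c (eb 0))ᵀ * c (eb 5)) * (((c (eb 0))ᵀ * c (eb 6)) *
      ((c (eb 0))ᵀ * c (eb 7)))))))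

theorem lin_ext {W : Type} [AddCommGroup W] [Module ℝ W] {f g : R8 →ₗ[ℝ] W}
    (h : ∀ i, f (eb i) = g (eb i)) : f = g := by
  refine LinearMap.pi_ext' fun i => ?_
  ext
  simpa using h i

theorem om_eq {c : R8 →ₗ[ℝ] M8} (hc : IsComp c) : om c = -1 ∨ om c = 1 := by
  by_cases h : om c = -1
  · exact Or.inl h
  right
  have hcomm : ∀ i : Fin 8, ((c (eb 0))ᵀ * c (eb i)) * om c = om c * ((c (eb 0))ᵀ * c (eb i)) := by
    intro i
    have h7 := hc.seven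
    fin_cases i
    · change ((c (eb 0))ᵀ * c (eb 0)) * om c = om c * ((c (eb 0))ᵀ * c (eb 0))
      rw [hc.tt, one_mul, mul_one]
    · exact h7.om1
    · exact h7.om2
    · exact h7.om3
    · exact h7.om4
    · exact h7.om5
    · exact h7.om6
    · exact h7.om7
  have hsq : om c * om c = 1 := hc.seven.omsq
  obtain ⟨x, hx⟩ : ∃ x : R8, (om c + 1) *ᵥ x ≠ 0 := by
    by_contra hcon
    push Not at hcon
    apply h
    rw [eq_neg_iff_add_eq_zero]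
    exact Matrix.mulVec_injective (funext fun x => by rw [hcon x, Matrix.zero_mulVec])
  set v := (om c + 1) *ᵥ x with hv
  have hWv : om c *ᵥ v = v := by
    rw [hv, Matrix.mulVec_mulVec, mul_add, hsq, mul_one, add_comm]
  have hvv : v ⬝ᵥ v ≠ 0 := fun h0 => hx (dotProduct_self_eq_zero.1 h0)
  let L : R8 →ₗ[ℝ] R8 := (Matrix.mulVecLin ((c (eb 0))ᵀ)).comp
    ((LinearMap.applyₗ v).comp ((Matrix.mulVecBilin ℝ ℝ).comp c))
  have hL : ∀ q, L q = (c (eb 0))ᵀ *ᵥ (c q *ᵥ v) := fun q => rfl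
  have hinj : Function.Injective L := by
    rw [← LinearMap.ker_eq_bot, LinearMap.ker_eq_bot']
    intro q hq
    rw [hL] at hq
    have h1 : c q *ᵥ v = 0 := by
      have h2 := congrArg (fun w => c (eb 0) *ᵥ w) hq
      simp only [Matrix.mulVec_mulVec, Matrix.mulVec_zero] at h2
      rwa [← mul_assoc, hc.tt', one_mul] at h2
    have h3 := hc.norm q v
    rw [h1, zero_dotProduct] at h3
    rcases mul_eq_zero.1 h3.symm with h4 | h4
    · exact dotProduct_self_eq_zero.1 h4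
    · exact absurd h4 hvv
  have hsurj : Function.Surjective L := LinearMap.injective_iff_surjective.1 hinj
  have hWL : (Matrix.mulVecLin (om c)).comp L = L := by
    refine lin_ext fun i => ?_
    change om c *ᵥ L (eb i) = L (eb i)
    have h1 : L (eb i) = ((c (eb 0))ᵀ * c (eb i)) *ᵥ v := by
      rw [hL, Matrix.mulVec_mulVec]
    rw [h1, Matrix.mulVec_mulVec, ← hcomm i, ← Matrix.mulVec_mulVec, hWv]
  refine Matrix.mulVec_injective (funext fun y => ?_)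
  obtain ⟨q, rfl⟩ := hsurj y
  rw [Matrix.one_mulVec]
  exact congrArg (fun f : R8 →ₗ[ℝ] R8 => f q) hWL

/-! ### the operator attached to a complex structure -/

/-- the operator on the half spin representation attached to `J` -/
def Bop (c : R8 →ₗ[ℝ] M8) (J : M8) : M8 := (1 / 8 : ℝ) • ∑ i, (c (eb i))ᵀ * c (J *ᵥ eb i)

/-- the properties of the operator for complex structures of the right orientation -/
structure Good (c : R8 →ₗ[ℝ] M8) (J : M8) : Prop where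
  skew : (Bop c J)ᵀ = -Bop c J
  cube : Bop c J * (Bop c J * Bop c J) = -Bop c J
  tr : (Bop c J * Bop c J).trace = -2
  act : ∀ x, (-(Bop c J * Bop c J)) *ᵥ x = x → ∀ u, c (J *ᵥ u) *ᵥ x = c u *ᵥ (Bop c J *ᵥ x)

/-- the standard complex structure -/
def J0 : M8 := Matrix.of fun i j => if (j : ℕ) % 2 = 0 ∧ (i : ℕ) = j + 1 then 1 else
  if (i : ℕ) % 2 = 0 ∧ (j : ℕ) = i + 1 then -1 else 0

theorem J0_0 : J0 *ᵥ eb 0 = eb 1 := by
  rw [Matrix.mulVec_single_one]; ext i; fin_cases i <;> simp [J0, Matrix.col]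
theorem J0_1 : J0 *ᵥ eb 1 = -eb 0 := by
  rw [Matrix.mulVec_single_one]; ext i; fin_cases i <;> simp [J0, Matrix.col]
theorem J0_2 : J0 *ᵥ eb 2 = eb 3 := by
  rw [Matrix.mulVec_single_one]; ext i; fin_cases i <;> simp [J0, Matrix.col]
theorem J0_3 : J0 *ᵥ eb 3 = -eb 2 := by
  rw [Matrix.mulVec_single_one]; ext i; fin_cases i <;> simp [J0, Matrix.col]
theorem J0_4 : J0 *ᵥ eb 4 = eb 5 := by
  rw [Matrix.mulVec_single_one]; ext i; fin_cases i <;> simp [J0, Matrix.col]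
theorem J0_5 : J0 *ᵥ eb 5 = -eb 4 := by
  rw [Matrix.mulVec_single_one]; ext i; fin_cases i <;> simp [J0, Matrix.col]
theorem J0_6 : J0 *ᵥ eb 6 = eb 7 := by
  rw [Matrix.mulVec_single_one]; ext i; fin_cases i <;> simp [J0, Matrix.col]
theorem J0_7 : J0 *ᵥ eb 7 = -eb 6 := by
  rw [Matrix.mulVec_single_one]; ext i; fin_cases i <;> simp [J0, Matrix.col]

theorem trace_zero {e X : M8} (h : e * e = -1) (h' : e * X = -(X * e)) : X.trace = 0 := by
  have h1 : X = -(e * (e * X)) := by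
    rw [← mul_assoc, h, neg_one_mul, neg_neg]
  have h2 : (e * (e * X)).trace = X.trace := by
    rw [h', mul_neg, Matrix.trace_neg, ← mul_assoc, Matrix.trace_mul_comm, ← mul_assoc, h,
      neg_one_mul, Matrix.trace_neg, neg_neg]
  have h3 : X.trace = -(e * (e * X)).trace := by
    rw [← Matrix.trace_neg, ← h1]
  rw [h2] at h3
  linarith

theorem good_base {c : R8 →ₗ[ℝ] M8} (hc : IsComp c) (H : om c = -1) : Good c J0 := by
  have h7 := hc.seven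
  set e1 := (c (eb 0))ᵀ * c (eb 1) with he1
  set e2 := (c (eb 0))ᵀ * c (eb 2) with he2
  set e3 := (c (eb 0))ᵀ * c (eb 3) with he3
  set e4 := (c (eb 0))ᵀ * c (eb 4) with he4
  set e5 := (c (eb 0))ᵀ * c (eb 5) with he5
  set e6 := (c (eb 0))ᵀ * c (eb 6) with he6
  set e7 := (c (eb 0))ᵀ * c (eb 7) with he7
  have H' : e1 * (e2 * (e3 * (e4 * (e5 * (e6 * e7))))) = -1 := H
  have h67 := h7.e67 H'
  have t1 : e1ᵀ = -e1 := hc.tr (by decide)
  have t2 : e2ᵀ = -e2 := hc.tr (by decide)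
  have t3 : e3ᵀ = -e3 := hc.tr (by decide)
  have t4 : e4ᵀ = -e4 := hc.tr (by decide)
  have t5 : e5ᵀ = -e5 := hc.tr (by decide)
  have q23 : (c (eb 2))ᵀ * c (eb 3) = -(e2 * e3) := hc.prod' (by decide)
  have q45 : (c (eb 4))ᵀ * c (eb 5) = -(e4 * e5) := hc.prod' (by decide)
  have q67 : (c (eb 6))ᵀ * c (eb 7) = -(e6 * e7) := hc.prod' (by decide)
  have hB : Bop c J0 = (1 / 4 : ℝ) • bb e1 e2 e3 e4 e5 := by
    unfold Bop
    rw [Fin.sum_univ_eight, J0_0, J0_1, J0_2, J0_3, J0_4, J0_5, J0_6, J0_7]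
    simp only [map_neg, mul_neg]
    rw [hc.anti (i := 1) (j := 0) (by decide), hc.anti (i := 3) (j := 2) (by decide),
      hc.anti (i := 5) (j := 4) (by decide), hc.anti (i := 7) (j := 6) (by decide),
      ← he1, q23, q45, q67, h67]
    unfold bb
    module
  have hBB : Bop c J0 * Bop c J0 = -((1 / 4 : ℝ) • pp e1 e2 e3 e4 e5) := by
    rw [hB, smul_mul_smul_comm, h7.bb2]
    have h4 : (4 : M8) * pp e1 e2 e3 e4 e5 = (4 : ℝ) • pp e1 e2 e3 e4 e5 := by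
      rw [← Nat.cast_ofNat (R := M8), ← nsmul_eq_mul, ← Nat.cast_smul_eq_nsmul ℝ]
      norm_num
    rw [h4]
    module
  have hpp : pp e1 e2 e3 e4 e5 * pp e1 e2 e3 e4 e5 = (4 : ℝ) • pp e1 e2 e3 e4 e5 := by
    rw [h7.pp2, ← Nat.cast_ofNat (R := M8), ← nsmul_eq_mul, ← Nat.cast_smul_eq_nsmul ℝ]
    norm_num
  have hbp : bb e1 e2 e3 e4 e5 * pp e1 e2 e3 e4 e5 = (4 : ℝ) • bb e1 e2 e3 e4 e5 := by
    rw [← h7.e1p, mul_assoc, hpp, mul_smul_comm]
  refine ⟨?_, ?_, ?_, ?_⟩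
  · rw [hB, Matrix.transpose_smul, ← smul_neg]
    congr 1
    unfold bb
    simp only [Matrix.transpose_sub, Matrix.transpose_mul, t1, t2, t3, t4, t5]
    simp only [mul_assoc, neg_mul, mul_neg, neg_neg, h7.a12, h7.a13, h7.a14, h7.a15, h7.a23,
      h7.a24, h7.a25, h7.a34, h7.a35, h7.a45, aa_of_a h7.a12, aa_of_a h7.a13, aa_of_a h7.a14,
      aa_of_a h7.a15, aa_of_a h7.a23, aa_of_a h7.a24, aa_of_a h7.a25, aa_of_a h7.a34,
      aa_of_a h7.a35, aa_of_a h7.a45]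
    abel
  · rw [hBB, hB, mul_neg, smul_mul_smul_comm, hbp]
    module
  · rw [hBB, Matrix.trace_neg, Matrix.trace_smul]
    unfold pp
    rw [Matrix.trace_sub, Matrix.trace_add, Matrix.trace_add, Matrix.trace_one,
      trace_zero (e := e4) (X := e1 * (e2 * e3)) h7.s4 (by
        simp only [mul_assoc, neg_mul, mul_neg, neg_neg, h7.a14, h7.a24, h7.a34,
          aa_of_a h7.a14, aa_of_a h7.a24, aa_of_a h7.a34]),
      trace_zero (e := e2) (X := e1 * (e4 * e5)) h7.s2 (by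
        simp only [mul_assoc, neg_mul, mul_neg, neg_neg, h7.a12, h7.a24, h7.a25,
          aa_of_a h7.a12, aa_of_a h7.a24, aa_of_a h7.a25]),
      trace_zero (e := e2) (X := e2 * (e3 * (e4 * e5))) h7.s2 (by
        simp only [mul_assoc, neg_mul, mul_neg, neg_neg, h7.a23, h7.a24, h7.a25, h7.s2,
          aa_of_a h7.a23, aa_of_a h7.a24, aa_of_a h7.a25, as_of_s h7.s2])]
    norm_num
  · intro x hx u
    rw [hBB, neg_neg] at hx
    have hk : ∀ f : M8, f * pp e1 e2 e3 e4 e5 = bb e1 e2 e3 e4 e5 → f *ᵥ x = Bop c J0 *ᵥ x := by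
      intro f hf
      conv_lhs => rw [← hx]
      rw [Matrix.mulVec_mulVec, mul_smul_comm, hf, hB]
    have k1 := hk _ h7.e1p
    have k2 := hk _ h7.e23p
    have k3 := hk _ h7.e45p
    have k4 := hk _ (h7.e67p H')
    rw [← q23] at k2
    rw [← q45] at k3
    rw [← q67] at k4
    have l1 : ∀ i j : Fin 8, ((c (eb i))ᵀ * c (eb j)) *ᵥ x = Bop c J0 *ᵥ x →
        c (eb j) *ᵥ x = c (eb i) *ᵥ (Bop c J0 *ᵥ x) := by
      intro i j h
      rw [← h, Matrix.mulVec_mulVec, ← mul_assoc, hc.tt', one_mul]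
    have l2 : ∀ i j : Fin 8, i ≠ j → ((c (eb i))ᵀ * c (eb j)) *ᵥ x = Bop c J0 *ᵥ x →
        -(c (eb i) *ᵥ x) = c (eb j) *ᵥ (Bop c J0 *ᵥ x) := by
      intro i j hij h
      rw [← h, hc.anti hij, Matrix.mulVec_mulVec, mul_neg, ← mul_assoc, hc.tt', one_mul,
        Matrix.neg_mulVec]
    let f : R8 →ₗ[ℝ] R8 := (LinearMap.applyₗ x).comp ((Matrix.mulVecBilin ℝ ℝ).comp
      (c.comp (Matrix.mulVecLin J0)))
    let g : R8 →ₗ[ℝ] R8 := (LinearMap.applyₗ (Bop c J0 *ᵥ x)).comp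
      ((Matrix.mulVecBilin ℝ ℝ).comp c)
    have hfg : f = g := by
      refine lin_ext fun i => ?_
      change c (J0 *ᵥ eb i) *ᵥ x = c (eb i) *ᵥ (Bop c J0 *ᵥ x)
      fin_cases i
      · change c (J0 *ᵥ eb 0) *ᵥ x = c (eb 0) *ᵥ (Bop c J0 *ᵥ x)
        rw [J0_0]; exact l1 _ _ k1
      · change c (J0 *ᵥ eb 1) *ᵥ x = c (eb 1) *ᵥ (Bop c J0 *ᵥ x)
        rw [J0_1, map_neg, Matrix.neg_mulVec]; exact l2 _ _ (by decide) k1
      · change c (J0 *ᵥ eb 2) *ᵥ x = c (eb 2) *ᵥ (Bop c J0 *ᵥ x)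
        rw [J0_2]; exact l1 _ _ k2
      · change c (J0 *ᵥ eb 3) *ᵥ x = c (eb 3) *ᵥ (Bop c J0 *ᵥ x)
        rw [J0_3, map_neg, Matrix.neg_mulVec]; exact l2 _ _ (by decide) k2
      · change c (J0 *ᵥ eb 4) *ᵥ x = c (eb 4) *ᵥ (Bop c J0 *ᵥ x)
        rw [J0_4]; exact l1 _ _ k3
      · change c (J0 *ᵥ eb 5) *ᵥ x = c (eb 5) *ᵥ (Bop c J0 *ᵥ x)
        rw [J0_5, map_neg, Matrix.neg_mulVec]; exact l2 _ _ (by decide) k3
      · change c (J0 *ᵥ eb 6) *ᵥ x = c (eb 6) *ᵥ (Bop c J0 *ᵥ x)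
        rw [J0_6]; exact l1 _ _ k4
      · change c (J0 *ᵥ eb 7) *ᵥ x = c (eb 7) *ᵥ (Bop c J0 *ᵥ x)
        rw [J0_7, map_neg, Matrix.neg_mulVec]; exact l2 _ _ (by decide) k4
    exact congrArg (fun h : R8 →ₗ[ℝ] R8 => h u) hfg

end Pool.Agent.TH874.SD
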