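import Pool.Agent.H472R3.Fib
import Pool.Agent.TH874.SD.Alg

/-!
Sections of plane bundles over spheres.
-/

set_option autoImplicit false
set_option linter.unusedSimpArgs false
set_option linter.unusedSectionVars false

noncomputable section

namespace Pool.Agent.TH874.SD

open Matrix Metric Module
open scoped unitInterval

/-- complex matrices -/
abbrev MC : Type := Matrix (Fin 8) (Fin 8) ℂ

/-- `ℂ⁸` -/
abbrev EC : Type := EuclideanSpace ℂ (Fin 8)

/-- the projections of rank one -/
abbrev PB : Type := {Q : MC // Qᴴ = Q ∧ Q * Q = Q ∧ Q.trace = 1}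

/-- the projection onto the line of `v` -/
def pj (v : EC) : MC := Matrix.vecMulVec v.ofLp (star v.ofLp)

theorem pj_mulVec (v w : EC) : pj v *ᵥ w.ofLp = (inner ℂ v w) • v.ofLp := by
  have h : inner ℂ v w = star v.ofLp ⬝ᵥ w.ofLp := by
    rw [EuclideanSpace.inner_eq_star_dotProduct, dotProduct_comm]
  rw [pj, Matrix.vecMulVec_mulVec, h]
  simp

theorem star_dot_self {v : EC} (hv : ‖v‖ = 1) : star v.ofLp ⬝ᵥ v.ofLp = 1 := by
  have h : inner ℂ v v = star v.ofLp ⬝ᵥ v.ofLp := by
    rw [EuclideanSpace.inner_eq_star_dotProduct, dotProduct_comm]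
  rw [← h, inner_self_eq_norm_sq_to_K, hv]
  simp

theorem pj_mem {v : EC} (hv : ‖v‖ = 1) : (pj v)ᴴ = pj v ∧ pj v * pj v = pj v ∧
    (pj v).trace = 1 := by
  refine ⟨?_, ?_, ?_⟩
  · rw [pj, Matrix.conjTranspose_vecMulVec, star_star]
  · rw [pj, Matrix.vecMulVec_mul_vecMulVec, star_dot_self hv]
    simp
  · rw [pj, Matrix.trace_vecMulVec, dotProduct_comm, star_dot_self hv]

open scoped ComplexOrder in
theorem exists_pj (Q : PB) : ∃ v : EC, ‖v‖ = 1 ∧ Q.1 = pj v := by
  obtain ⟨Q, h1, h2, h3⟩ := Q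
  have hQ0 : Q ≠ 0 := by
    rintro rfl
    simp at h3
  obtain ⟨w, hw⟩ : ∃ w : Fin 8 → ℂ, Q *ᵥ w ≠ 0 := by
    by_contra hcon
    push Not at hcon
    exact hQ0 (Matrix.mulVec_injective (funext fun x => by rw [hcon x, Matrix.zero_mulVec]))
  let z : EC := WithLp.toLp 2 (Q *ᵥ w)
  have hz : z ≠ 0 := fun h => hw (congrArg WithLp.ofLp h)
  let v : EC := ((‖z‖⁻¹ : ℝ) : ℂ) • z
  have hv : ‖v‖ = 1 := by
    change ‖((‖z‖⁻¹ : ℝ) : ℂ) • z‖ = 1
    rw [norm_smul, Complex.norm_real, norm_inv, norm_norm, inv_mul_cancel₀ (norm_ne_zero_iff.2 hz)]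
  have hQv : Q *ᵥ v.ofLp = v.ofLp := by
    change Q *ᵥ (((‖z‖⁻¹ : ℝ) : ℂ) • (Q *ᵥ w)) = ((‖z‖⁻¹ : ℝ) : ℂ) • (Q *ᵥ w)
    rw [Matrix.mulVec_smul, Matrix.mulVec_mulVec, h2]
  refine ⟨v, hv, ?_⟩
  obtain ⟨p1, p2, p3⟩ := pj_mem hv
  have e1 : Q * pj v = pj v := by
    rw [pj, Matrix.mul_vecMulVec, hQv]
  have e2 : pj v * Q = pj v := by
    have := congrArg Matrix.conjTranspose e1
    rwa [Matrix.conjTranspose_mul, h1, p1] at this
  have e3 : ((Q - pj v)ᴴ * (Q - pj v)).trace = 0 := by
    rw [Matrix.conjTranspose_sub, h1, p1, sub_mul, mul_sub, mul_sub, h2, e1, e2, p2, sub_self,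
      sub_zero, Matrix.trace_sub, h3, p3, sub_self]
  have e4 := Matrix.trace_conjTranspose_mul_self_eq_zero_iff.1 e3
  exact sub_eq_zero.1 e4

/-- matrices as operators -/
def opC : MC →ₗ[ℂ] (EC →L[ℂ] EC) :=
  (Matrix.toEuclideanCLM (n := Fin 8) (𝕜 := ℂ)).toAlgEquiv.toLinearEquiv.toLinearMap

theorem opC_ofLp (A : MC) (x : EC) : (opC A x).ofLp = A *ᵥ x.ofLp := rfl

theorem opC_continuous : Continuous (opC : MC → (EC →L[ℂ] EC)) :=
  LinearMap.continuous_of_finiteDimensional opC

theorem euc_ext {x y : EC} (h : x.ofLp = y.ofLp) : x = y := by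
  ext i
  exact congrFun h i

/-- the circle bundle -/
def fib : H472R3.LineFib EC PB where
  π v := ⟨pj v, pj_mem (mem_sphere_zero_iff_norm.1 v.2)⟩
  P Q := opC Q.1
  hP := opC_continuous.comp continuous_subtype_val
  surj Q := by
    obtain ⟨v, hv, hQ⟩ := exists_pj Q
    exact ⟨⟨v, mem_sphere_zero_iff_norm.2 hv⟩, Subtype.ext hQ.symm⟩
  P_π v w := by
    refine euc_ext ?_
    rw [opC_ofLp, pj_mulVec]
    rfl
  inv u v c h := by
    refine Subtype.ext ?_
    have hc : ‖c‖ = 1 := by
      have h1 := congrArg norm h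
      rw [norm_smul, mem_sphere_zero_iff_norm.1 v.2, mem_sphere_zero_iff_norm.1 u.2, mul_one] at h1
      exact h1.symm
    have hcc : c * star c = 1 := by
      have : c * star c = ((‖c‖ ^ 2 : ℝ) : ℂ) := by
        rw [Complex.star_def, Complex.mul_conj, Complex.normSq_eq_norm_sq]
      rw [this, hc]
      simp
    change pj v = pj u
    rw [h]
    ext i j
    change (c * (u : EC).ofLp i) * star (c * (u : EC).ofLp j) =
      (u : EC).ofLp i * star ((u : EC).ofLp j)
    rw [star_mul]
    calc c * (u : EC).ofLp i * (star ((u : EC).ofLp j) * star c)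
        = (c * star c) * ((u : EC).ofLp i * star ((u : EC).ofLp j)) := by ring
      _ = _ := by rw [hcc, one_mul]

/-- the complexification of a real matrix -/
def cx (A : M8) : MC := A.map (Complex.ofReal)

theorem cx_mul (A B : M8) : cx (A * B) = cx A * cx B := by
  ext i j
  simp [cx, Matrix.mul_apply]

theorem cx_neg (A : M8) : cx (-A) = -cx A := by
  ext i j
  simp [cx]

theorem cx_star (A : M8) : (cx A)ᴴ = cx Aᵀ := by
  ext i j
  simp [cx, Matrix.conjTranspose_apply]

theorem cx_trace (A : M8) : (cx A).trace = ((A.trace : ℝ) : ℂ) := by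
  simp [cx, Matrix.trace]

/-- sections of plane bundles over spheres of dimension at least three -/
theorem exists_section {E : Type} [NormedAddCommGroup E] [InnerProductSpace ℝ E]
    [FiniteDimensional ℝ E] (hE : 3 < finrank ℝ E) (B : C(sphere (0 : E) 1, M8))
    (h1 : ∀ x, (B x)ᵀ = -B x) (h2 : ∀ x, B x * (B x * B x) = -B x)
    (h3 : ∀ x, (B x * B x).trace = -2) :
    ∃ a : C(sphere (0 : E) 1, R8), ∀ x, a x ≠ 0 ∧ (-(B x * B x)) *ᵥ a x = a x := by
  have hq : ∀ x, ((-(1 / 2 : ℂ)) • (cx (B x) * cx (B x) + Complex.I • cx (B x)))ᴴ =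
      (-(1 / 2 : ℂ)) • (cx (B x) * cx (B x) + Complex.I • cx (B x)) ∧
      ((-(1 / 2 : ℂ)) • (cx (B x) * cx (B x) + Complex.I • cx (B x))) *
        ((-(1 / 2 : ℂ)) • (cx (B x) * cx (B x) + Complex.I • cx (B x))) =
      (-(1 / 2 : ℂ)) • (cx (B x) * cx (B x) + Complex.I • cx (B x)) ∧
      ((-(1 / 2 : ℂ)) • (cx (B x) * cx (B x) + Complex.I • cx (B x))).trace = 1 := by
    intro x
    have g1 : (cx (B x))ᴴ = -cx (B x) := by rw [cx_star, h1, cx_neg]
    have g2 : cx (B x) * (cx (B x) * cx (B x)) = -cx (B x) := by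
      rw [← cx_mul, ← cx_mul, h2, cx_neg]
    have g2' : cx (B x) * cx (B x) * cx (B x) = -cx (B x) := by
      rw [mul_assoc, g2]
    have g3 : (cx (B x) * cx (B x)).trace = -2 := by
      rw [← cx_mul, cx_trace, h3]
      simp
    have g4 : (cx (B x)).trace = 0 := by
      rw [cx_trace]
      have : (B x).trace = -(B x).trace := by
        conv_lhs => rw [← Matrix.trace_transpose, h1, Matrix.trace_neg]
      have h0 : (B x).trace = 0 := by linarith
      rw [h0]
      simp
    generalize cx (B x) = T at g1 g2 g2' g3 g4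
    refine ⟨?_, ?_, ?_⟩
    · rw [Matrix.conjTranspose_smul, Matrix.conjTranspose_add, Matrix.conjTranspose_mul,
        Matrix.conjTranspose_smul, g1]
      have hs1 : star (-(1 / 2 : ℂ)) = -(1 / 2) := by
        simp
      have hs2 : star Complex.I = -Complex.I := by
        simp
      rw [hs1, hs2]
      simp
    · rw [smul_mul_smul_comm, add_mul, mul_add, mul_add, mul_smul_comm, smul_mul_assoc,
        smul_mul_smul_comm, Complex.I_mul_I, g2, g2', ← mul_assoc (T * T) T T, g2']
      have : -T * T = -(T * T) := neg_mul _ _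
      rw [this]
      module
    · rw [Matrix.trace_smul, Matrix.trace_add, Matrix.trace_smul, g3, g4]
      simp
  have hcx : Continuous cx := by
    refine continuous_matrix fun i j => ?_
    exact Complex.continuous_ofReal.comp (continuous_id.matrix_elem i j)
  let b : C(sphere (0 : E) 1, PB) :=
    ⟨fun x => ⟨(-(1 / 2 : ℂ)) • (cx (B x) * cx (B x) + Complex.I • cx (B x)), hq x⟩, by
      refine Continuous.subtype_mk ?_ _
      have hB : Continuous fun x => cx (B x) := hcx.comp B.continuous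
      exact ((hB.matrix_mul hB).add (hB.const_smul Complex.I)).const_smul (-(1 / 2 : ℂ))⟩
  obtain ⟨s, hs⟩ := fib.lift_sphere hE b
  have hsQ : ∀ x, ((-(1 / 2 : ℂ)) • (cx (B x) * cx (B x) + Complex.I • cx (B x))) *ᵥ
      (s x : EC).ofLp = (s x : EC).ofLp := by
    intro x
    have e1 := fib.P_self (s x)
    rw [hs] at e1
    exact congrArg WithLp.ofLp e1
  have hBv : ∀ x, cx (B x) *ᵥ (s x : EC).ofLp = Complex.I • (s x : EC).ofLp := by
    intro x
    have e1 := hsQ x
    have g2 : cx (B x) * (cx (B x) * cx (B x)) = -cx (B x) := by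
      rw [← cx_mul, ← cx_mul, h2, cx_neg]
    have e2 := congrArg (fun w => cx (B x) *ᵥ w) e1
    simp only [Matrix.mulVec_mulVec, mul_smul_comm, mul_add, g2] at e2
    generalize cx (B x) = T at e1 e2
    generalize (s x : EC).ofLp = v at e1 e2
    rw [Matrix.smul_mulVec, Matrix.add_mulVec, Matrix.smul_mulVec] at e1 e2
    rw [Matrix.neg_mulVec] at e2
    -- e1 : -(1/2) (T² v + i T v) = v ; e2 : -(1/2) (-T v + i T² v) = T v
    have e3 : (T * T) *ᵥ v = Complex.I • (T *ᵥ v) := by
      have e4 : T *ᵥ v = -(Complex.I • ((T * T) *ᵥ v)) := by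
        have h2e : (2 : ℂ) • (T *ᵥ v) = T *ᵥ v - Complex.I • ((T * T) *ᵥ v) := by
          conv_lhs => rw [← e2]
          module
        have : T *ᵥ v = (2 : ℂ) • (T *ᵥ v) - T *ᵥ v := by module
        rw [this, h2e]
        module
      rw [e4, smul_neg, smul_smul, Complex.I_mul_I]
      simp
    rw [e3] at e1
    conv_rhs => rw [← e1]
    rw [← two_smul ℂ (Complex.I • T *ᵥ v), smul_smul, smul_smul, smul_smul]
    have : Complex.I * (-(1 / 2) * (2 * Complex.I)) = 1 := by
      have := Complex.I_mul_I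
      linear_combination (-1) * this
    first
      | rw [this, one_smul]
      | (simp only [← mul_assoc] at this ⊢; rw [this, one_smul])
  refine ⟨⟨fun x i => ((s x : EC).ofLp i).re, ?_⟩, fun x => ⟨?_, ?_⟩⟩
  · refine continuous_pi fun i => ?_
    exact Complex.continuous_re.comp ((EuclideanSpace.proj (𝕜 := ℂ) i).continuous.comp
      (continuous_subtype_val.comp s.continuous))
  · intro h0
    have hre : ∀ i, ((s x : EC).ofLp i).re = 0 := fun i => congrFun h0 i
    have him : ∀ i, ((s x : EC).ofLp i).im = 0 := by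
      intro i
      have e1 := congrArg Complex.re (congrFun (hBv x) i)
      rw [Pi.smul_apply, smul_eq_mul, Complex.I_mul_re] at e1
      have e2 : ((cx (B x) *ᵥ (s x : EC).ofLp) i).re = ∑ j, B x i j * ((s x : EC).ofLp j).re := by
        rw [Matrix.mulVec, dotProduct, Complex.re_sum]
        refine Finset.sum_congr rfl fun j _ => ?_
        simp [cx]
      rw [e2] at e1
      simp only [hre, mul_zero, Finset.sum_const_zero] at e1
      linarith
    have hz : (s x : EC) = 0 := by
      refine euc_ext (funext fun i => ?_)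
      exact Complex.ext (hre i) (him i)
    have hn : ‖(s x : EC)‖ = 1 := mem_sphere_zero_iff_norm.1 (s x).2
    rw [hz, norm_zero] at hn
    exact zero_ne_one hn
  · have e0 := hBv x
    have e1 : B x *ᵥ (fun i => ((s x : EC).ofLp i).re) = fun i => -((s x : EC).ofLp i).im := by
      funext i
      have e1 := congrArg Complex.re (congrFun e0 i)
      rw [Pi.smul_apply, smul_eq_mul, Complex.I_mul_re] at e1
      rw [← e1, Matrix.mulVec, dotProduct, Matrix.mulVec, dotProduct, Complex.re_sum]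
      refine Finset.sum_congr rfl fun j _ => ?_
      simp [cx]
    have e2 : B x *ᵥ (fun i => ((s x : EC).ofLp i).im) = fun i => ((s x : EC).ofLp i).re := by
      funext i
      have e1 := congrArg Complex.im (congrFun e0 i)
      rw [Pi.smul_apply, smul_eq_mul, Complex.I_mul_im] at e1
      rw [← e1, Matrix.mulVec, dotProduct, Matrix.mulVec, dotProduct, Complex.im_sum]
      refine Finset.sum_congr rfl fun j _ => ?_
      simp [cx]
    change (-(B x * B x)) *ᵥ (fun i => ((s x : EC).ofLp i).re) = fun i => ((s x : EC).ofLp i).re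
    rw [Matrix.neg_mulVec, ← Matrix.mulVec_mulVec, e1]
    have : (fun i => -((s x : EC).ofLp i).im) = -(fun i => ((s x : EC).ofLp i).im) := rfl
    rw [this, Matrix.mulVec_neg, neg_neg, e2]

end Pool.Agent.TH874.SD
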