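import Pool.Agent.TH874.SD.Kform
import Pool.Agent.TH874.SD.Sec

/-!
`π₃` and `π₅` of the space of two-forms with negative fourth power vanish (job SD-L4).
-/

set_option autoImplicit false
set_option linter.unusedSimpArgs false
set_option linter.unusedSectionVars false

noncomputable section

namespace Pool.Agent.TH874.SD

open Matrix Pool.Agent.TH179.SD Metric Module
open scoped unitInterval

theorem Kmat_chg (c : R8 →ₗ[ℝ] M8) (F : M8) (p : R8 × R8) :
    Kmat (chg c F) p = Fᵀ * Kmat c p * F := by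
  ext i j
  have h := Kmat_apply c p (F *ᵥ eb i) (F *ᵥ eb j)
  rw [Matrix.mulVec_mulVec, dot_mulVec, ← mul_assoc, Matrix.mulVec_single_one,
    single_one_dotProduct] at h
  exact h.symm

theorem exists_comp (hp : PowProps) : ∃ c : R8 →ₗ[ℝ] M8, IsComp c ∧
    ∀ p : St2 R8, pow4 (frm (Kmat c p.1)) rb < 0 := by
  have key : ∀ c : R8 →ₗ[ℝ] M8, IsComp c → ∀ p0 : St2 R8, pow4 (frm (Kmat c p0.1)) rb < 0 →
      ∀ p : St2 R8, pow4 (frm (Kmat c p.1)) rb < 0 := by
    intro c hc p0 h0 p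
    have := St2_pre
    have hcont : Continuous fun p : St2 R8 => frm (Kmat c p.1) :=
      frm_continuous.comp ((Kmat_continuous c).comp continuous_subtype_val)
    exact sgn hp hcont (fun p => nd_frm (Kmat_skew c _) (Kmat_nd hc p.2)) h0 p
  let p0 : St2 R8 := ⟨(eb 0, eb 1), by
    intro a b h
    have h0 := congrFun h 0
    have h1 := congrFun h 1
    simp at h0 h1
    exact ⟨h0, h1⟩⟩
  by_cases h : pow4 (frm (Kmat octL p0.1)) rb < 0
  · exact ⟨octL, octL_comp, key _ octL_comp p0 h⟩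
  · have hne : pow4 (frm (Kmat octL p0.1)) rb ≠ 0 :=
      (hp.nondeg _).2 (nd_frm (Kmat_skew _ _) (Kmat_nd octL_comp p0.2))
    have hpos : 0 < pow4 (frm (Kmat octL p0.1)) rb := lt_of_le_of_ne (not_lt.1 h) hne.symm
    refine ⟨chg octL D1, octL_comp.chg D1_sq, key _ (octL_comp.chg D1_sq) p0 ?_⟩
    rw [Kmat_chg, frm_conj hp (Kmat_skew _ _), D1_det]
    linarith

theorem smul_pos_nd {A : M8} (hA : Aᵀ = -A) (hA2 : A * A = -1) {r : ℝ} (hr : 0 < r) :
    Nd (frm (r • A)) := by
  refine nd_frm (by rw [Matrix.transpose_smul, hA, smul_neg]) fun x hx => ?_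
  rw [Matrix.smul_mulVec] at hx
  have h1 := (smul_eq_zero.1 hx).resolve_left hr.ne'
  have h2 := congrArg (fun w => A *ᵥ w) h1
  simp only [Matrix.mulVec_mulVec, hA2, Matrix.mulVec_zero, Matrix.neg_mulVec,
    Matrix.one_mulVec] at h2
  exact neg_eq_zero.1 h2

theorem neg_of_smul (hp : PowProps) {A : M8} (hA : Aᵀ = -A) (hA2 : A * A = -1) {r : ℝ}
    (hr : 0 < r) (h : pow4 (frm (r • A)) rb < 0) : pow4 (frm A) rb < 0 := by
  have hγ : Continuous fun t : I => frm (((1 - (t : ℝ)) * r + (t : ℝ)) • A) :=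
    frm_continuous.comp (by fun_prop)
  have hpos : ∀ t : I, 0 < (1 - (t : ℝ)) * r + (t : ℝ) := by
    intro t
    have h0 := t.2.1
    have h1 := t.2.2
    rcases h0.eq_or_lt with h2 | h2
    · rw [← h2]; simpa using hr
    · have := mul_nonneg (sub_nonneg.2 h1) hr.le
      linarith
  have := sgn hp hγ (fun t => smul_pos_nd hA hA2 (hpos t)) (x0 := 0) (by simpa using h) 1
  simpa using this

section

variable {c : R8 →ₗ[ℝ] M8} {J : M8}

theorem Kmat_good (hc : IsComp c) (hJ : Jᵀ = -J) (hG : Good c J) {x : R8}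
    (hx : (-(Bop c J * Bop c J)) *ᵥ x = x) :
    Kmat c (x, Bop c J *ᵥ x) = (2 * (x ⬝ᵥ x)) • J := by
  have hact := hG.act x hx
  ext i j
  have e1 : (c (eb i) *ᵥ x) ⬝ᵥ (c (eb j) *ᵥ (Bop c J *ᵥ x)) = J i j * (x ⬝ᵥ x) := by
    rw [← hact (eb j)]
    have h := hc.star (eb i) (J *ᵥ eb j) x x
    have h2 : (c (J *ᵥ eb j) *ᵥ x) ⬝ᵥ (c (eb i) *ᵥ x) = (c (eb i) *ᵥ x) ⬝ᵥ (c (J *ᵥ eb j) *ᵥ x) :=
      dotProduct_comm _ _
    have h3 : eb i ⬝ᵥ (J *ᵥ eb j) = J i j := by
      rw [Matrix.mulVec_single_one, single_one_dotProduct]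
      rfl
    rw [h2, h3] at h
    linarith
  have e2 : (c (eb i) *ᵥ (Bop c J *ᵥ x)) ⬝ᵥ (c (eb j) *ᵥ x) = -(J i j * (x ⬝ᵥ x)) := by
    rw [← hact (eb i)]
    have h := hc.star (J *ᵥ eb i) (eb j) x x
    have h2 : (c (eb j) *ᵥ x) ⬝ᵥ (c (J *ᵥ eb i) *ᵥ x) = (c (J *ᵥ eb i) *ᵥ x) ⬝ᵥ (c (eb j) *ᵥ x) :=
      dotProduct_comm _ _
    have h3 : (J *ᵥ eb i) ⬝ᵥ eb j = -J i j := by
      rw [skew_dot hJ, Matrix.mulVec_single_one, single_one_dotProduct]
      rfl
    rw [h2, h3] at h
    linarith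
  change (c (eb i) *ᵥ x) ⬝ᵥ (c (eb j) *ᵥ (Bop c J *ᵥ x)) -
    (c (eb i) *ᵥ (Bop c J *ᵥ x)) ⬝ᵥ (c (eb j) *ᵥ x) = (2 * (x ⬝ᵥ x)) * J i j
  rw [e1, e2]
  ring

theorem LI_good (hG : Good c J) {x : R8} (hx : (-(Bop c J * Bop c J)) *ᵥ x = x) (hx0 : x ≠ 0) :
    LI R8 (x, Bop c J *ᵥ x) := by
  have hxx : x ⬝ᵥ x ≠ 0 := fun h => hx0 (dotProduct_self_eq_zero.1 h)
  have h1 : x ⬝ᵥ (Bop c J *ᵥ x) = 0 := skew_self hG.skew x
  have h2 : (Bop c J *ᵥ x) ⬝ᵥ (Bop c J *ᵥ x) = x ⬝ᵥ x := by
    rw [dot_mulVec, hG.skew, neg_mul, hx]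
  intro a b hab
  have hab' : a • x + b • (Bop c J *ᵥ x) = 0 := hab
  have h3 := congrArg (fun w => x ⬝ᵥ w) hab'
  have h4 := congrArg (fun w => (Bop c J *ᵥ x) ⬝ᵥ w) hab'
  simp only [dotProduct_add, dotProduct_smul, smul_eq_mul, dotProduct_zero, h1, h2, mul_zero,
    add_zero, dotProduct_comm (Bop c J *ᵥ x) x, zero_add] at h3 h4
  exact ⟨(mul_eq_zero.1 h3).resolve_right hxx, (mul_eq_zero.1 h4).resolve_right hxx⟩

theorem good_of_neg (hp : PowProps) (hc : IsComp c)
    (hneg : ∀ p : St2 R8, pow4 (frm (Kmat c p.1)) rb < 0) (hJ : Jᵀ = -J) (hJ2 : J * J = -1)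
    (hJn : pow4 (frm J) rb < 0) : Good c J := by
  rcases dich hc hJ hJ2 with h | ⟨r, hr, hr2, hG⟩
  · exact h
  exfalso
  have k1 : (r * J * rᵀ)ᵀ = -(r * J * rᵀ) := by
    simp only [Matrix.transpose_mul, Matrix.transpose_transpose, hJ]
    simp [mul_assoc]
  have k2 : (r * J * rᵀ) * (r * J * rᵀ) = -1 := by
    have e1 : (r * J * rᵀ) * (r * J * rᵀ) = r * (J * (rᵀ * r) * J) * rᵀ := by
      simp only [mul_assoc]
    rw [e1, hr2, mul_one, hJ2, mul_neg, neg_mul, mul_one, mul_eq_one_comm.1 hr2]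
  set J' := r * J * rᵀ with hJ'
  have hB0 : Bop c J' * Bop c J' ≠ 0 := by
    intro h0
    have := hG.tr
    rw [h0, Matrix.trace_zero] at this
    norm_num at this
  obtain ⟨y, hy⟩ : ∃ y : R8, (Bop c J' * Bop c J') *ᵥ y ≠ 0 := by
    by_contra hcon
    push Not at hcon
    exact hB0 (Matrix.mulVec_injective (funext fun x => by rw [hcon x, Matrix.zero_mulVec]))
  have hx : (-(Bop c J' * Bop c J')) *ᵥ ((Bop c J' * Bop c J') *ᵥ y) =
      (Bop c J' * Bop c J') *ᵥ y := by
    rw [Matrix.mulVec_mulVec]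
    congr 1
    have e1 : Bop c J' * Bop c J' * (Bop c J' * Bop c J') =
        Bop c J' * (Bop c J' * (Bop c J' * Bop c J')) := by
      simp only [mul_assoc]
    rw [neg_mul, e1, hG.cube, mul_neg, neg_neg]
  have hLI := LI_good hG hx hy
  have h1 := hneg ⟨_, hLI⟩
  rw [Kmat_good hc k1 hG hx] at h1
  have hpos : 0 < 2 * (((Bop c J' * Bop c J') *ᵥ y) ⬝ᵥ ((Bop c J' * Bop c J') *ᵥ y)) := by
    have h0 : 0 ≤ ((Bop c J' * Bop c J') *ᵥ y) ⬝ᵥ ((Bop c J' * Bop c J') *ᵥ y) :=
      Finset.sum_nonneg fun i _ => mul_self_nonneg _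
    rcases h0.eq_or_lt with h | h
    · exact absurd (dotProduct_self_eq_zero.1 h.symm) hy
    · linarith
  have h2 := neg_of_smul hp k1 k2 hpos h1
  have h3 := frm_conj hp hJ rᵀ
  rw [Matrix.transpose_transpose, ← hJ', Matrix.det_transpose, hr] at h3
  rw [h3] at h2
  linarith

end

theorem Bop_continuous (c : R8 →ₗ[ℝ] M8) : Continuous (Bop c) := by
  unfold Bop
  have hc : Continuous c := LinearMap.continuous_of_finiteDimensional c
  refine Continuous.const_smul (continuous_finsetSum _ fun i _ => ?_) (1 / 8 : ℝ)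
  exact continuous_const.matrix_mul (hc.comp (Continuous.matrix_mulVec continuous_id
    continuous_const))

/-- the main step -/
theorem nullNeg (hpol : PolarProp 8) (hp : PowProps) {E : Type} [NormedAddCommGroup E]
    [InnerProductSpace ℝ E] [FiniteDimensional ℝ E] (hE : 3 < finrank ℝ E)
    (hE' : finrank ℝ E < 7) (g : C(sphere (0 : E) 1, NegForm)) : g.Nullhomotopic := by
  have hnt : Nontrivial E := Module.nontrivial_of_finrank_pos (R := ℝ) (by omega)
  obtain ⟨pol, hpolc, hpol⟩ := hpol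
  obtain ⟨c, hc, hneg⟩ := exists_comp hp
  -- the complex structure
  have hnd : ∀ x, Nd (g x).1 := fun x => nd_of_neg hp (g x).2
  have hmem : ∀ x, mat (g x).1 ∈ {A : M8 | A.transpose = -A ∧ A.det ≠ 0} := fun x =>
    ⟨mat_skew _, det_of_nd (hnd x)⟩
  have hJc : Continuous fun x => pol (mat (g x).1) :=
    hpolc.comp_continuous (mat_continuous.comp (continuous_subtype_val.comp g.continuous)) hmem
  have hJ : ∀ x, (pol (mat (g x).1))ᵀ = -pol (mat (g x).1) := fun x =>
    (hpol _ (hmem x).1 (hmem x).2).1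
  have hJ2 : ∀ x, pol (mat (g x).1) * pol (mat (g x).1) = -1 := fun x =>
    (hpol _ (hmem x).1 (hmem x).2).2.1
  -- first homotopy
  obtain ⟨g1, hg1, k1⟩ := homotNeg hp g
    ⟨fun q => frm ((1 - (q.1 : ℝ)) • mat (g q.2).1 + (q.1 : ℝ) • pol (mat (g q.2).1)), by
      refine frm_continuous.comp ?_
      have h1 : Continuous fun q : I × sphere (0 : E) 1 => mat (g q.2).1 :=
        mat_continuous.comp (continuous_subtype_val.comp (g.continuous.comp continuous_snd))
      have h2 : Continuous fun q : I × sphere (0 : E) 1 => pol (mat (g q.2).1) :=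
        hJc.comp continuous_snd
      have h3 : Continuous fun q : I × sphere (0 : E) 1 => (q.1 : ℝ) :=
        continuous_subtype_val.comp continuous_fst
      exact ((continuous_const.sub h3).smul h1).add (h3.smul h2)⟩ (by
      rintro ⟨t, x⟩
      change Nd (frm ((1 - (t : ℝ)) • mat (g x).1 + (t : ℝ) • pol (mat (g x).1)))
      have ht0 := t.2.1
      have ht1 := t.2.2
      refine nd_frm ?_ fun y hy => ?_
      · rw [Matrix.transpose_add, Matrix.transpose_smul, Matrix.transpose_smul, mat_skew, hJ]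
        module
      · obtain ⟨P, hP, hAP, -⟩ := (hpol _ (hmem x).1 (hmem x).2).2.2.1
        by_contra hy0
        set J := pol (mat (g x).1) with hJdef
        have e1 : J * mat (g x).1 = -P := by
          rw [hAP, ← mul_assoc, hJ2 x, neg_one_mul]
        have e2 := congrArg (fun w => J *ᵥ w) hy
        simp only [Matrix.mulVec_mulVec, Matrix.mulVec_zero, mul_add, mul_smul_comm, e1,
          hJ2 x] at e2
        have e3 := congrArg (fun w => y ⬝ᵥ w) e2
        simp only [Matrix.add_mulVec, Matrix.smul_mulVec, Matrix.neg_mulVec, Matrix.one_mulVec,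
          dotProduct_add, dotProduct_smul, dotProduct_neg, smul_eq_mul, dotProduct_zero] at e3
        have e6 : (J * J) *ᵥ y = -y := by
          rw [hJ2 x, Matrix.neg_mulVec, Matrix.one_mulVec]
        rw [e6, dotProduct_neg] at e3
        have e4 : 0 < y ⬝ᵥ (P *ᵥ y) := by
          have := hP.dotProduct_mulVec_pos hy0
          simpa using this
        have e5 : 0 < y ⬝ᵥ y := by
          have h0 : 0 ≤ y ⬝ᵥ y := Finset.sum_nonneg fun i _ => mul_self_nonneg _
          rcases h0.eq_or_lt with h | h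
          · exact absurd (dotProduct_self_eq_zero.1 h.symm) hy0
          · exact h
        rcases ht0.eq_or_lt with h | h
        · rw [← h] at e3
          simp at e3
          linarith
        · have := mul_pos h e5
          have := mul_nonneg (sub_nonneg.2 ht1) e4.le
          linarith) (by
      intro x
      change frm ((1 - ((0 : I) : ℝ)) • mat (g x).1 + ((0 : I) : ℝ) • pol (mat (g x).1)) = _
      simp [frm_mat])
  have hg1' : ∀ x, (g1 x).1 = frm (pol (mat (g x).1)) := by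
    intro x
    rw [hg1]
    change frm ((1 - ((1 : I) : ℝ)) • mat (g x).1 + ((1 : I) : ℝ) • pol (mat (g x).1)) = _
    simp
  have hG : ∀ x, Good c (pol (mat (g x).1)) := fun x =>
    good_of_neg hp hc hneg (hJ x) (hJ2 x) (by rw [← hg1']; exact (g1 x).2)
  -- the section
  obtain ⟨a, ha⟩ := exists_section hE ⟨fun x => Bop c (pol (mat (g x).1)),
    (Bop_continuous c).comp hJc⟩ (fun x => (hG x).skew) (fun x => (hG x).cube) fun x => (hG x).tr
  have ha1 : ∀ x, (-(Bop c (pol (mat (g x).1)) * Bop c (pol (mat (g x).1)))) *ᵥ a x = a x :=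
    fun x => (ha x).2
  have hpos : ∀ x, 0 < a x ⬝ᵥ a x := by
    intro x
    have h0 : 0 ≤ a x ⬝ᵥ a x := Finset.sum_nonneg fun i _ => mul_self_nonneg _
    rcases h0.eq_or_lt with h | h
    · exact absurd (dotProduct_self_eq_zero.1 h.symm) (ha x).1
    · exact h
  -- second homotopy
  obtain ⟨g2, hg2, k2⟩ := homotNeg hp g1
    ⟨fun q => frm (((1 - (q.1 : ℝ)) + (q.1 : ℝ) * (2 * (a q.2 ⬝ᵥ a q.2))) •
        pol (mat (g q.2).1)), by
      refine frm_continuous.comp ?_
      have h2 : Continuous fun q : I × sphere (0 : E) 1 => pol (mat (g q.2).1) :=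
        hJc.comp continuous_snd
      have h3 : Continuous fun q : I × sphere (0 : E) 1 => (q.1 : ℝ) :=
        continuous_subtype_val.comp continuous_fst
      have h4 : Continuous fun q : I × sphere (0 : E) 1 => a q.2 ⬝ᵥ a q.2 :=
        (a.continuous.comp continuous_snd).dotProduct (a.continuous.comp continuous_snd)
      exact ((continuous_const.sub h3).add (h3.mul (continuous_const.mul h4))).smul h2⟩ (by
      rintro ⟨t, x⟩
      change Nd (frm (((1 - (t : ℝ)) + (t : ℝ) * (2 * (a x ⬝ᵥ a x))) • pol (mat (g x).1)))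
      refine smul_pos_nd (hJ x) (hJ2 x) ?_
      have ht0 := t.2.1
      have ht1 := t.2.2
      have hx := hpos x
      rcases ht0.eq_or_lt with h | h
      · rw [← h]; norm_num
      · have := mul_pos h hx
        nlinarith) (by
      intro x
      rw [hg1']
      change frm (((1 - ((0 : I) : ℝ)) + ((0 : I) : ℝ) * (2 * (a x ⬝ᵥ a x))) •
        pol (mat (g x).1)) = _
      simp)
  have hg2' : ∀ x, (g2 x).1 = frm (Kmat c (a x, Bop c (pol (mat (g x).1)) *ᵥ a x)) := by
    intro x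
    rw [hg2, Kmat_good hc (hJ x) (hG x) (ha1 x)]
    change frm (((1 - ((1 : I) : ℝ)) + ((1 : I) : ℝ) * (2 * (a x ⬝ᵥ a x))) •
      pol (mat (g x).1)) = _
    simp
  -- factor through the space of pairs
  let f : C(sphere (0 : E) 1, St2 R8) :=
    ⟨fun x => ⟨(a x, Bop c (pol (mat (g x).1)) *ᵥ a x), LI_good (hG x) (ha1 x) (ha x).1⟩, by
      refine Continuous.subtype_mk (a.continuous.prodMk ?_) _
      exact Continuous.matrix_mulVec ((Bop_continuous c).comp hJc) a.continuous⟩
  let κ : C(St2 R8, NegForm) := ⟨fun p => ⟨frm (Kmat c p.1), hneg p⟩, by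
    refine Continuous.subtype_mk ?_ _
    exact frm_continuous.comp ((Kmat_continuous c).comp continuous_subtype_val)⟩
  have hd : finrank ℝ E + 1 < finrank ℝ R8 := by
    rw [Module.finrank_fin_fun]
    omega
  have hf := nullSt hd f
  have hκ : g2 = κ.comp f := by
    ext x : 1
    exact Subtype.ext (hg2' x)
  obtain ⟨y, hy⟩ := hf.comp_right κ
  rw [← hκ] at hy
  exact ⟨y, (k1.trans k2).trans hy⟩

theorem taskPi : TaskPi := by
  intro hpol hp
  constructor
  · intro g
    exact nullNeg hpol hp (by rw [finrank_euclideanSpace_fin]; norm_num)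
      (by rw [finrank_euclideanSpace_fin]; norm_num) g
  · intro g
    exact nullNeg hpol hp (by rw [finrank_euclideanSpace_fin]; norm_num)
      (by rw [finrank_euclideanSpace_fin]; norm_num) g

end Pool.Agent.TH874.SD

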