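import Pool.Agent.TH874.SD.Alg

/-!
Adapted bases, and the two cases for the orientation.
-/

set_option autoImplicit false
set_option linter.unusedSimpArgs false
set_option linter.unusedSectionVars false

noncomputable section

namespace Pool.Agent.TH874.SD

open Matrix

/-- change of basis -/
def chg (c : R8 →ₗ[ℝ] M8) (F : M8) : R8 →ₗ[ℝ] M8 := c.comp (Matrix.mulVecLin F)

theorem chg_apply (c : R8 →ₗ[ℝ] M8) (F : M8) (u : R8) : chg c F u = c (F *ᵥ u) := rfl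

theorem IsComp.chg {c : R8 →ₗ[ℝ] M8} (hc : IsComp c) {F : M8} (hF : Fᵀ * F = 1) :
    IsComp (chg c F) := by
  intro u v
  rw [chg_apply, chg_apply, hc, dot_mulVec, hF, Matrix.one_mulVec]

theorem mulVec_eb (F : M8) (i : Fin 8) : F *ᵥ eb i = ∑ a, F a i • eb a := by
  rw [Matrix.mulVec_single_one]
  ext b
  rw [Finset.sum_apply, Finset.sum_eq_single b]
  · simp [Matrix.col]
  · intro a _ ha
    simp [Pi.single_apply, ha.symm]
  · simp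

theorem Bop_chg (c : R8 →ₗ[ℝ] M8) (F : M8) : Bop (chg c F) J0 = Bop c (F * J0 * Fᵀ) := by
  unfold Bop
  congr 1
  simp only [chg_apply]
  have h1 : ∀ i, (c (F *ᵥ eb i))ᵀ * c (F *ᵥ (J0 *ᵥ eb i)) =
      ∑ a, (c (eb a))ᵀ * c (F *ᵥ (J0 *ᵥ (F a i • eb i))) := by
    intro i
    rw [mulVec_eb F i, map_sum, Matrix.transpose_sum, Finset.sum_mul]
    refine Finset.sum_congr rfl fun a _ => ?_
    rw [map_smul, Matrix.transpose_smul, smul_mul_assoc, Matrix.mulVec_smul, Matrix.mulVec_smul,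
      map_smul, mul_smul_comm]
  rw [Finset.sum_congr rfl fun i _ => h1 i, Finset.sum_comm]
  refine Finset.sum_congr rfl fun a _ => ?_
  rw [← Finset.mul_sum, ← map_sum]
  congr 2
  rw [← Matrix.mulVec_sum, ← Matrix.mulVec_sum, ← Matrix.mulVec_mulVec, ← Matrix.mulVec_mulVec,
    mulVec_eb Fᵀ a]
  rfl

theorem Good.chg {c : R8 →ₗ[ℝ] M8} {F : M8} (hF : Fᵀ * F = 1)
    (h : Good (chg c F) J0) : Good c (F * J0 * Fᵀ) := by
  have hb := Bop_chg c F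
  obtain ⟨h1, h2, h3, h4⟩ := h
  rw [hb] at h1 h2 h3 h4
  refine ⟨h1, h2, h3, fun x hx u => ?_⟩
  have h5 := h4 x hx (Fᵀ *ᵥ u)
  have e1 : F *ᵥ (J0 *ᵥ (Fᵀ *ᵥ u)) = (F * J0 * Fᵀ) *ᵥ u := by
    rw [Matrix.mulVec_mulVec, Matrix.mulVec_mulVec]
  have e2 : F *ᵥ (Fᵀ *ᵥ u) = u := by
    rw [Matrix.mulVec_mulVec, mul_eq_one_comm.1 hF, Matrix.one_mulVec]
  rw [chg_apply, chg_apply, e1, e2] at h5
  exact h5

/-! ### adapted bases -/

theorem exists_orth {k : ℕ} (hk : k < 8) (w : Fin k → R8) :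
    ∃ v : R8, v ⬝ᵥ v = 1 ∧ ∀ i, v ⬝ᵥ w i = 0 := by
  let L : R8 →ₗ[ℝ] (Fin k → ℝ) := Matrix.mulVecLin (Matrix.of w)
  have hker : LinearMap.ker L ≠ ⊥ := LinearMap.ker_ne_bot_of_finrank_lt (by simpa using hk)
  obtain ⟨v, hv, hv0⟩ := Submodule.exists_mem_ne_zero_of_ne_bot hker
  have hvv : 0 < v ⬝ᵥ v := by
    have h0 : 0 ≤ v ⬝ᵥ v := Finset.sum_nonneg fun i _ => mul_self_nonneg _
    rcases h0.eq_or_lt with h | h
    · exact absurd (dotProduct_self_eq_zero.1 h.symm) hv0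
    · exact h
  have hw : ∀ i, w i ⬝ᵥ v = 0 := fun i => congrFun (LinearMap.mem_ker.1 hv) i
  refine ⟨(Real.sqrt (v ⬝ᵥ v))⁻¹ • v, ?_, fun i => ?_⟩
  · rw [smul_dotProduct, dotProduct_smul, smul_eq_mul, smul_eq_mul, ← mul_assoc, ← mul_inv,
      Real.mul_self_sqrt hvv.le, inv_mul_cancel₀ hvv.ne']
  · rw [smul_dotProduct, dotProduct_comm v (w i), hw, smul_zero]

theorem skew_dot {J : M8} (hJ : Jᵀ = -J) (x y : R8) : (J *ᵥ x) ⬝ᵥ y = -(x ⬝ᵥ (J *ᵥ y)) := by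
  have h := dot_mulVec J 1 x y
  rw [Matrix.one_mulVec, mul_one, hJ, Matrix.neg_mulVec, dotProduct_neg] at h
  exact h

theorem skew_self {J : M8} (hJ : Jᵀ = -J) (x : R8) : x ⬝ᵥ (J *ᵥ x) = 0 := by
  have h := skew_dot hJ x x
  rw [dotProduct_comm] at h
  linarith

theorem J_dot {J : M8} (hJ : Jᵀ = -J) (hJ2 : J * J = -1) (x y : R8) :
    (J *ᵥ x) ⬝ᵥ (J *ᵥ y) = x ⬝ᵥ y := by
  rw [dot_mulVec, hJ, neg_mul, hJ2, neg_neg, Matrix.one_mulVec]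

theorem exists_adapted {J : M8} (hJ : Jᵀ = -J) (hJ2 : J * J = -1) :
    ∃ F : M8, Fᵀ * F = 1 ∧ J = F * J0 * Fᵀ := by
  have hJJ : ∀ x, J *ᵥ (J *ᵥ x) = -x := fun x => by
    rw [Matrix.mulVec_mulVec, hJ2, Matrix.neg_mulVec, Matrix.one_mulVec]
  obtain ⟨f0, h00, -⟩ := exists_orth (k := 0) (by norm_num) (fun i => i.elim0)
  obtain ⟨f1, h11, g1⟩ := exists_orth (k := 2) (by norm_num) ![f0, J *ᵥ f0]
  obtain ⟨f2, h22, g2⟩ := exists_orth (k := 4) (by norm_num) ![f0, J *ᵥ f0, f1, J *ᵥ f1]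
  obtain ⟨f3, h33, g3⟩ := exists_orth (k := 6) (by norm_num)
    ![f0, J *ᵥ f0, f1, J *ᵥ f1, f2, J *ᵥ f2]
  have a10 : f1 ⬝ᵥ f0 = 0 := g1 0
  have b10 : f1 ⬝ᵥ (J *ᵥ f0) = 0 := g1 1
  have a20 : f2 ⬝ᵥ f0 = 0 := g2 0
  have b20 : f2 ⬝ᵥ (J *ᵥ f0) = 0 := g2 1
  have a21 : f2 ⬝ᵥ f1 = 0 := g2 2
  have b21 : f2 ⬝ᵥ (J *ᵥ f1) = 0 := g2 3
  have a30 : f3 ⬝ᵥ f0 = 0 := g3 0
  have b30 : f3 ⬝ᵥ (J *ᵥ f0) = 0 := g3 1
  have a31 : f3 ⬝ᵥ f1 = 0 := g3 2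
  have b31 : f3 ⬝ᵥ (J *ᵥ f1) = 0 := g3 3
  have a32 : f3 ⬝ᵥ f2 = 0 := g3 4
  have b32 : f3 ⬝ᵥ (J *ᵥ f2) = 0 := g3 5
  have a01 : f0 ⬝ᵥ f1 = 0 := by rw [dotProduct_comm]; exact a10
  have a02 : f0 ⬝ᵥ f2 = 0 := by rw [dotProduct_comm]; exact a20
  have a12 : f1 ⬝ᵥ f2 = 0 := by rw [dotProduct_comm]; exact a21
  have a03 : f0 ⬝ᵥ f3 = 0 := by rw [dotProduct_comm]; exact a30
  have a13 : f1 ⬝ᵥ f3 = 0 := by rw [dotProduct_comm]; exact a31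
  have a23 : f2 ⬝ᵥ f3 = 0 := by rw [dotProduct_comm]; exact a32
  have sw : ∀ x y : R8, x ⬝ᵥ (J *ᵥ y) = 0 → y ⬝ᵥ (J *ᵥ x) = 0 := fun x y h => by
    have h1 := skew_dot hJ x y
    rw [h, neg_zero, dotProduct_comm] at h1
    exact h1
  have cm : ∀ x y : R8, x ⬝ᵥ (J *ᵥ y) = 0 → (J *ᵥ y) ⬝ᵥ x = 0 := fun x y h => by
    rw [dotProduct_comm]; exact h
  let F : M8 := (Matrix.of ![f0, J *ᵥ f0, f1, J *ᵥ f1, f2, J *ᵥ f2, f3, J *ᵥ f3])ᵀ
  have hF : Fᵀ * F = 1 := by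
    ext i j
    change (![f0, J *ᵥ f0, f1, J *ᵥ f1, f2, J *ᵥ f2, f3, J *ᵥ f3] i) ⬝ᵥ
      (![f0, J *ᵥ f0, f1, J *ᵥ f1, f2, J *ᵥ f2, f3, J *ᵥ f3] j) = _
    fin_cases i <;> fin_cases j <;>
      simp [Matrix.one_apply, J_dot hJ hJ2, skew_self hJ, h00, h11, h22, h33, a01, a02, a03, a12,
        a13, a23, a10, a20, a30, a21, a31, a32, b10, b20, b30, b21, b31, b32, sw _ _ b10,
        sw _ _ b20, sw _ _ b30, sw _ _ b21, sw _ _ b31, sw _ _ b32, cm _ _ b10, cm _ _ b20,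
        cm _ _ b30, cm _ _ b21, cm _ _ b31, cm _ _ b32, cm _ _ (sw _ _ b10),
        cm _ _ (sw _ _ b20), cm _ _ (sw _ _ b30), cm _ _ (sw _ _ b21), cm _ _ (sw _ _ b31),
        cm _ _ (sw _ _ b32), cm _ _ (skew_self hJ f0), cm _ _ (skew_self hJ f1),
        cm _ _ (skew_self hJ f2), cm _ _ (skew_self hJ f3)]
  have hcol : ∀ i, F *ᵥ eb i = ![f0, J *ᵥ f0, f1, J *ᵥ f1, f2, J *ᵥ f2, f3, J *ᵥ f3] i := by
    intro i
    rw [Matrix.mulVec_single_one]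
    rfl
  have hJF : J * F = F * J0 := by
    refine Matrix.mulVec_injective (funext fun u => ?_)
    have hl : Matrix.mulVecLin (J * F) = Matrix.mulVecLin (F * J0) := by
      refine lin_ext fun i => ?_
      rw [Matrix.mulVecLin_apply, Matrix.mulVecLin_apply, ← Matrix.mulVec_mulVec,
        ← Matrix.mulVec_mulVec]
      fin_cases i
      · change J *ᵥ (F *ᵥ eb 0) = F *ᵥ (J0 *ᵥ eb 0)
        rw [J0_0, hcol, hcol]; rfl
      · change J *ᵥ (F *ᵥ eb 1) = F *ᵥ (J0 *ᵥ eb 1)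
        rw [J0_1, Matrix.mulVec_neg, hcol, hcol]; exact hJJ _
      · change J *ᵥ (F *ᵥ eb 2) = F *ᵥ (J0 *ᵥ eb 2)
        rw [J0_2, hcol, hcol]; rfl
      · change J *ᵥ (F *ᵥ eb 3) = F *ᵥ (J0 *ᵥ eb 3)
        rw [J0_3, Matrix.mulVec_neg, hcol, hcol]; exact hJJ _
      · change J *ᵥ (F *ᵥ eb 4) = F *ᵥ (J0 *ᵥ eb 4)
        rw [J0_4, hcol, hcol]; rfl
      · change J *ᵥ (F *ᵥ eb 5) = F *ᵥ (J0 *ᵥ eb 5)
        rw [J0_5, Matrix.mulVec_neg, hcol, hcol]; exact hJJ _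
      · change J *ᵥ (F *ᵥ eb 6) = F *ᵥ (J0 *ᵥ eb 6)
        rw [J0_6, hcol, hcol]; rfl
      · change J *ᵥ (F *ᵥ eb 7) = F *ᵥ (J0 *ᵥ eb 7)
        rw [J0_7, Matrix.mulVec_neg, hcol, hcol]; exact hJJ _
    exact congrArg (fun h : R8 →ₗ[ℝ] R8 => h u) hl
  refine ⟨F, hF, ?_⟩
  rw [← hJF, mul_assoc, mul_eq_one_comm.1 hF, mul_one]

/-- the reflection -/
def D1 : M8 := Matrix.diagonal fun i => if i = 1 then -1 else 1

theorem D1_sq : D1ᵀ * D1 = 1 := by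
  rw [D1, Matrix.diagonal_transpose, Matrix.diagonal_mul_diagonal, ← Matrix.diagonal_one]
  congr 1
  funext i
  by_cases h : i = 1 <;> simp [h]

theorem D1_det : D1.det = -1 := by
  rw [D1, Matrix.det_diagonal, Fin.prod_univ_eight]
  simp [Fin.ext_iff]

theorem D1_eb (i : Fin 8) : D1 *ᵥ eb i = if i = 1 then -eb i else eb i := by
  rw [D1, Matrix.mulVec_single_one]
  ext j
  by_cases h : i = 1
  · subst h
    by_cases hj : j = 1
    · subst hj; simp [Matrix.col]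
    · simp [Matrix.col, Matrix.diagonal_apply, Pi.single_apply, hj]
  · by_cases hj : j = i
    · subst hj; simp [Matrix.col, h]
    · simp [Matrix.col, Matrix.diagonal_apply, Pi.single_apply, hj, h]

theorem om_chg_D1 (c : R8 →ₗ[ℝ] M8) (F : M8) : om (chg c (F * D1)) = -om (chg c F) := by
  have h : ∀ i, chg c (F * D1) (eb i) = if i = 1 then -chg c F (eb i) else chg c F (eb i) := by
    intro i
    rw [chg_apply, ← Matrix.mulVec_mulVec, D1_eb]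
    split_ifs
    · rw [Matrix.mulVec_neg, map_neg, chg_apply]
    · rw [chg_apply]
  unfold om
  simp [h, Fin.ext_iff]

theorem dich {c : R8 →ₗ[ℝ] M8} (hc : IsComp c) {J : M8} (hJ : Jᵀ = -J) (hJ2 : J * J = -1) :
    Good c J ∨ ∃ r : M8, r.det = -1 ∧ rᵀ * r = 1 ∧ Good c (r * J * rᵀ) := by
  obtain ⟨F, hF, hJF⟩ := exists_adapted hJ hJ2
  rcases om_eq (hc.chg hF) with h | h
  · left
    rw [hJF]
    exact Good.chg hF (good_base (hc.chg hF) h)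
  · right
    have hF' : (F * D1)ᵀ * (F * D1) = 1 := by
      rw [Matrix.transpose_mul, mul_assoc, ← mul_assoc Fᵀ, hF, one_mul, D1_sq]
    have hFF : F * Fᵀ = 1 := mul_eq_one_comm.1 hF
    have hG := Good.chg (c := c) hF' (good_base (hc.chg hF') (by rw [om_chg_D1, h]))
    refine ⟨F * D1 * Fᵀ, ?_, ?_, ?_⟩
    · rw [Matrix.det_mul, Matrix.det_mul, D1_det, Matrix.det_transpose]
      have h1 : Fᵀ.det * F.det = 1 := by
        rw [← Matrix.det_mul, hF, Matrix.det_one]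
      rw [Matrix.det_transpose] at h1
      linarith
    · simp only [Matrix.transpose_mul, Matrix.transpose_transpose]
      have : F * (D1ᵀ * Fᵀ) * (F * D1 * Fᵀ) = F * (D1ᵀ * (Fᵀ * F) * D1) * Fᵀ := by
        simp only [mul_assoc]
      rw [this, hF, mul_one, D1_sq, mul_one, hFF]
    · have e1 : F * D1 * Fᵀ * J * (F * D1 * Fᵀ)ᵀ = F * D1 * J0 * (F * D1)ᵀ := by
        rw [hJF]
        simp only [Matrix.transpose_mul, Matrix.transpose_transpose]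
        have : F * D1 * Fᵀ * (F * J0 * Fᵀ) * (F * (D1ᵀ * Fᵀ)) =
            F * D1 * (Fᵀ * F) * J0 * (Fᵀ * F) * (D1ᵀ * Fᵀ) := by
          simp only [mul_assoc]
        rw [this, hF, mul_one, mul_one]
      rw [e1]
      exact hG

end Pool.Agent.TH874.SD
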