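import Mathlib

/-!
Linearly independent pairs of vectors: maps of low dimensional spheres are nullhomotopic.
-/

set_option autoImplicit false
set_option linter.unusedSectionVars false

noncomputable section

namespace Pool.Agent.TH874.SD

open Metric Module Set
open scoped unitInterval Topology

section

variable {E V : Type} [NormedAddCommGroup E] [InnerProductSpace ℝ E] [FiniteDimensional ℝ E]
    [NormedAddCommGroup V] [NormedSpace ℝ V] [FiniteDimensional ℝ V]

theorem dim_lt (hd : finrank ℝ E + 1 < finrank ℝ V) {Φ : E × ℝ → V}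
    (hΦ : ∀ p : E × ℝ, p.1 ≠ 0 → ContDiffAt ℝ 1 Φ p) :
    dimH (Φ '' {p : E × ℝ | p.1 ≠ 0}) < finrank ℝ V := by
  refine lt_of_le_of_lt (dimH_image_le_of_locally_lipschitzOn fun y hy => ?_) ?_
  · obtain ⟨K, t, ht, hK⟩ := (hΦ y hy).exists_lipschitzOnWith
    exact ⟨K, t, mem_nhdsWithin_of_mem_nhds ht, hK⟩
  · refine lt_of_le_of_lt (dimH_mono (Set.subset_univ _)) ?_
    rw [Real.dimH_univ_eq_finrank (E × ℝ), Module.finrank_prod, Module.finrank_self]
    exact_mod_cast hd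

theorem avoid2 (hd : finrank ℝ E + 1 < finrank ℝ V) {G1 G2 : E → V} (h1 : ContDiff ℝ 1 G1)
    (h2 : ContDiff ℝ 1 G2) :
    ∃ u : V, ∀ x ∈ sphere (0 : E) 1, ∀ α β : ℝ, 0 ≤ α → u ≠ -(α • G1 x) + β • G2 x := by
  let Φ : E × ℝ → V := fun p => -(‖p.1‖ • G1 (‖p.1‖⁻¹ • p.1)) + p.2 • G2 (‖p.1‖⁻¹ • p.1)
  let Ψ : E × ℝ → V := fun p => p.2 • G2 (‖p.1‖⁻¹ • p.1)
  have hn : ∀ p : E × ℝ, p.1 ≠ 0 → ContDiffAt ℝ 1 (fun p : E × ℝ => ‖p.1‖) p := fun p hp =>
    (contDiffAt_norm ℝ hp).comp p contDiffAt_fst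
  have hu : ∀ p : E × ℝ, p.1 ≠ 0 → ContDiffAt ℝ 1 (fun p : E × ℝ => ‖p.1‖⁻¹ • p.1) p :=
    fun p hp => ((hn p hp).inv (norm_ne_zero_iff.2 hp)).smul contDiffAt_fst
  have hΨ : ∀ p : E × ℝ, p.1 ≠ 0 → ContDiffAt ℝ 1 Ψ p := fun p hp =>
    contDiffAt_snd.smul (h2.contDiffAt.comp p (hu p hp))
  have hΦ : ∀ p : E × ℝ, p.1 ≠ 0 → ContDiffAt ℝ 1 Φ p := fun p hp =>
    (((hn p hp).smul (h1.contDiffAt.comp p (hu p hp))).neg).add (hΨ p hp)
  have hdim : dimH (Φ '' {p : E × ℝ | p.1 ≠ 0} ∪ Ψ '' {p : E × ℝ | p.1 ≠ 0}) <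
      finrank ℝ V := by
    rw [dimH_union]
    exact max_lt (dim_lt hd hΦ) (dim_lt hd hΨ)
  obtain ⟨u, hu'⟩ := (dense_compl_of_dimH_lt_finrank hdim).nonempty
  refine ⟨u, fun x hx α β hα h => hu' ?_⟩
  have hx1 : ‖x‖ = 1 := mem_sphere_zero_iff_norm.1 hx
  have hx0 : x ≠ 0 := fun h => by
    rw [h, norm_zero] at hx1
    exact zero_ne_one hx1
  rcases hα.eq_or_lt with h0 | h0
  · refine Or.inr ⟨(x, β), hx0, ?_⟩
    change β • G2 (‖x‖⁻¹ • x) = u
    rw [hx1, inv_one, one_smul, h, ← h0]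
    simp
  · have hn : ‖α • x‖ = α := by rw [norm_smul, hx1, mul_one, Real.norm_eq_abs, abs_of_pos h0]
    refine Or.inl ⟨(α • x, β), smul_ne_zero h0.ne' hx0, ?_⟩
    change -(‖α • x‖ • G1 (‖α • x‖⁻¹ • (α • x))) + β • G2 (‖α • x‖⁻¹ • (α • x)) = u
    rw [hn, smul_smul, inv_mul_cancel₀ h0.ne', one_smul, h]

/-- linearly independent pairs -/
abbrev LI (V : Type) [AddCommGroup V] [Module ℝ V] (p : V × V) : Prop :=
  ∀ a b : ℝ, a • p.1 + b • p.2 = 0 → a = 0 ∧ b = 0

/-- the space of linearly independent pairs -/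
abbrev St2 (V : Type) [AddCommGroup V] [Module ℝ V] : Type := {p : V × V // LI V p}

theorem isOpen_LI : IsOpen {p : V × V | LI V p} := by
  have h1 : IsOpen {f : Fin 2 → V | LinearIndependent ℝ f} := isOpen_setOfPred_linearIndependent
  have h2 : Continuous fun p : V × V => (![p.1, p.2] : Fin 2 → V) := by
    refine continuous_pi fun i => ?_
    fin_cases i
    · exact continuous_fst
    · exact continuous_snd
  have h3 := h1.preimage h2
  refine (Eq.subst (motive := fun s => IsOpen s) ?_ h3)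
  ext p
  change LinearIndependent ℝ ![p.1, p.2] ↔ _
  rw [LinearIndependent.pair_iff]
  rfl

theorem homotSt {X : Type} [TopologicalSpace X] (f g : C(X, St2 V)) (H : C(I × X, V × V))
    (hH : ∀ q, LI V (H q)) (h0 : ∀ x, H (0, x) = (f x).1) (h1 : ∀ x, H (1, x) = (g x).1) :
    f.Homotopic g :=
  ⟨⟨⟨fun q => ⟨H q, hH q⟩, Continuous.subtype_mk H.continuous _⟩, fun x => Subtype.ext (h0 x),
    fun x => Subtype.ext (h1 x)⟩⟩

theorem nullSt [Nontrivial E] (hd : finrank ℝ E + 1 < finrank ℝ V) (f : C(sphere (0 : E) 1, St2 V)) :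
    f.Nullhomotopic := by
  have : TietzeExtension (V × V) := TietzeExtension.of_tvs ℝ
  let f0 : C(sphere (0 : E) 1, V × V) := ⟨fun v => (f v).1, by fun_prop⟩
  obtain ⟨F, hF⟩ := ContinuousMap.exists_restrict_eq (isClosed_sphere (x := (0 : E)) (ε := 1)) f0
  have hF' : ∀ v : sphere (0 : E) 1, F v = (f v).1 := fun v => congrArg (fun k => k v) hF
  have hcomp : IsCompact (Set.range f0) := isCompact_range f0.continuous
  obtain ⟨ε, hε, hth⟩ := hcomp.exists_thickening_subset_open (isOpen_LI (V := V)) (by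
    rintro _ ⟨v, rfl⟩
    exact (f v).2)
  obtain ⟨G, hG, hGF, -⟩ := F.continuous.exists_contDiff_approx 1 (ε := fun _ => ε)
    continuous_const (fun _ => hε)
  have hGc := hG.continuous
  have hclose : ∀ x : sphere (0 : E) 1, dist (G x) (f x).1 < ε := fun x => by
    have := hGF x
    rwa [hF'] at this
  have hth' : ∀ (x : sphere (0 : E) 1) (q : V × V), dist q (f x).1 < ε → LI V q := fun x q hq =>
    hth (Metric.mem_thickening_iff.2 ⟨(f x).1, ⟨x, rfl⟩, hq⟩)
  -- first homotopy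
  have hG1 : ContDiff ℝ 1 fun x => (G x).1 := hG.fst
  have hG2 : ContDiff ℝ 1 fun x => (G x).2 := hG.snd
  have hGLI : ∀ x : sphere (0 : E) 1, LI V (G x) := fun x => hth' x _ (hclose x)
  let g1 : C(sphere (0 : E) 1, St2 V) := ⟨fun x => ⟨G x, hGLI x⟩, by fun_prop⟩
  have k1 : f.Homotopic g1 := by
    refine homotSt f g1 ⟨fun q => (f q.2).1 + (q.1 : ℝ) • (G q.2 - (f q.2).1), by fun_prop⟩
      (fun q => ?_) (fun x => ?_) fun x => ?_
    · refine hth' q.2 _ ?_
      change dist ((f q.2).1 + (q.1 : ℝ) • (G q.2 - (f q.2).1)) (f q.2).1 < ε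
      rw [dist_eq_norm, add_sub_cancel_left, norm_smul, Real.norm_eq_abs, abs_of_nonneg q.1.2.1]
      have h1 := hclose q.2
      rw [dist_eq_norm] at h1
      have h2 := q.1.2.2
      have h3 := norm_nonneg (G q.2 - (f q.2).1)
      nlinarith
    · change (f x).1 + ((0 : I) : ℝ) • (G x - (f x).1) = (f x).1
      simp
    · change (f x).1 + ((1 : I) : ℝ) • (G x - (f x).1) = G x
      simp
  -- second homotopy
  obtain ⟨u, hu⟩ := avoid2 hd hG1 hG2
  have hH2 : ∀ (t : I) (x : sphere (0 : E) 1),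
      LI V ((1 - (t : ℝ)) • (G x).1 + (t : ℝ) • u, (G x).2) := by
    intro t x a b hab
    have hab' : a • ((1 - (t : ℝ)) • (G x).1 + (t : ℝ) • u) + b • (G x).2 = 0 := hab
    have ht0 := t.2.1
    have ht1 := t.2.2
    by_cases ha : a = 0
    · refine ⟨ha, ?_⟩
      rw [ha, zero_smul, zero_add] at hab'
      refine (hGLI x 0 b ?_).2
      rw [zero_smul, zero_add]
      exact hab'
    · exfalso
      rcases ht0.eq_or_lt with h0 | h0
      · rw [← h0] at hab'
        simp only [sub_zero, one_smul, zero_smul, add_zero] at hab'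
        exact ha (hGLI x a b hab').1
      · have hat : a * (t : ℝ) ≠ 0 := mul_ne_zero ha h0.ne'
        refine hu x x.2 ((t : ℝ)⁻¹ * (1 - t)) (-((a * t)⁻¹ * b))
          (mul_nonneg (inv_nonneg.2 ht0) (sub_nonneg.2 ht1)) ?_
        have h3 : (a * (t : ℝ)) • u = (a * (t : ℝ)) •
            (-(((t : ℝ)⁻¹ * (1 - t)) • (G x).1) + (-((a * t)⁻¹ * b)) • (G x).2) := by
          rw [smul_add, smul_neg, smul_smul, smul_smul]
          have e1 : a * (t : ℝ) * ((t : ℝ)⁻¹ * (1 - t)) = a * (1 - t) := by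
            field_simp
          have e2 : a * (t : ℝ) * -((a * t)⁻¹ * b) = -b := by
            field_simp
          rw [e1, e2]
          have h4 : (a * (t : ℝ)) • u = (a • ((1 - (t : ℝ)) • (G x).1 + (t : ℝ) • u) +
            b • (G x).2) - (a * (1 - t)) • (G x).1 - b • (G x).2 := by module
          rw [h4, hab']
          module
        exact smul_right_injective V hat h3
  have hu2 : ∀ x : sphere (0 : E) 1, LI V (u, (G x).2) := fun x => by
    have := hH2 1 x
    simpa using this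
  let g2 : C(sphere (0 : E) 1, St2 V) := ⟨fun x => ⟨(u, (G x).2), hu2 x⟩, by fun_prop⟩
  have k2 : g1.Homotopic g2 := by
    refine homotSt g1 g2 ⟨fun q => ((1 - (q.1 : ℝ)) • (G q.2).1 + (q.1 : ℝ) • u, (G q.2).2), by
      fun_prop⟩ (fun q => hH2 q.1 q.2) (fun x => ?_) fun x => ?_
    · change ((1 - ((0 : I) : ℝ)) • (G x).1 + ((0 : I) : ℝ) • u, (G x).2) = G x
      simp
    · change ((1 - ((1 : I) : ℝ)) • (G x).1 + ((1 : I) : ℝ) • u, (G x).2) = (u, (G x).2)
      simp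
  -- third homotopy
  obtain ⟨w, hw⟩ := avoid2 hd hG2 (contDiff_const (c := u))
  have hH3 : ∀ (t : I) (x : sphere (0 : E) 1),
      LI V (u, (1 - (t : ℝ)) • (G x).2 + (t : ℝ) • w) := by
    intro t x b a hab
    have hab' : b • u + a • ((1 - (t : ℝ)) • (G x).2 + (t : ℝ) • w) = 0 := hab
    have ht0 := t.2.1
    have ht1 := t.2.2
    by_cases ha : a = 0
    · refine ⟨?_, ha⟩
      rw [ha, zero_smul, add_zero] at hab'
      refine (hu2 x b 0 ?_).1
      rw [zero_smul, add_zero]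
      exact hab'
    · exfalso
      rcases ht0.eq_or_lt with h0 | h0
      · rw [← h0] at hab'
        simp only [sub_zero, one_smul, zero_smul, add_zero] at hab'
        exact ha (hu2 x b a hab').2
      · have hat : a * (t : ℝ) ≠ 0 := mul_ne_zero ha h0.ne'
        refine hw x x.2 ((t : ℝ)⁻¹ * (1 - t)) (-((a * t)⁻¹ * b))
          (mul_nonneg (inv_nonneg.2 ht0) (sub_nonneg.2 ht1)) ?_
        have h3 : (a * (t : ℝ)) • w = (a * (t : ℝ)) •
            (-(((t : ℝ)⁻¹ * (1 - t)) • (G x).2) + (-((a * t)⁻¹ * b)) • u) := by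
          rw [smul_add, smul_neg, smul_smul, smul_smul]
          have e1 : a * (t : ℝ) * ((t : ℝ)⁻¹ * (1 - t)) = a * (1 - t) := by
            field_simp
          have e2 : a * (t : ℝ) * -((a * t)⁻¹ * b) = -b := by
            field_simp
          rw [e1, e2]
          have h4 : (a * (t : ℝ)) • w = (b • u + a • ((1 - (t : ℝ)) • (G x).2 + (t : ℝ) • w)) -
            (a * (1 - t)) • (G x).2 - b • u := by module
          rw [h4, hab']
          module
        exact smul_right_injective V hat h3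
  obtain ⟨x0', hx0'⟩ := (NormedSpace.sphere_nonempty (x := (0 : E)) (r := 1)).2 zero_le_one
  let x0 : sphere (0 : E) 1 := ⟨x0', hx0'⟩
  have huw : LI V (u, w) := by
    have := hH3 1 x0
    simpa using this
  refine ⟨⟨(u, w), huw⟩, (k1.trans k2).trans ?_⟩
  refine homotSt g2 _ ⟨fun q => (u, (1 - (q.1 : ℝ)) • (G q.2).2 + (q.1 : ℝ) • w), by
    fun_prop⟩ (fun q => hH3 q.1 q.2) (fun x => ?_) fun x => ?_
  · change (u, (1 - ((0 : I) : ℝ)) • (G x).2 + ((0 : I) : ℝ) • w) = (u, (G x).2)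
    simp
  · change (u, (1 - ((1 : I) : ℝ)) • (G x).2 + ((1 : I) : ℝ) • w) = (u, w)
    simp

end

end Pool.Agent.TH874.SD
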