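import Pool.Agent.TH179.SD.Lin
import Pool.Agent.TH874.SD.Basis
import Pool.Agent.TH874.SD.GenPos

/-!
Two-forms on `V` and skew symmetric matrices.
-/

set_option autoImplicit false
set_option linter.unusedSimpArgs false
set_option linter.unusedSectionVars false

noncomputable section

namespace Pool.Agent.TH874.SD

open Matrix Pool.Agent.TH179.SD
open scoped unitInterval

/-- real coordinates on `V` -/
def coE : V ≃ₗ[ℝ] R8 where
  toFun w := ![(w 0).re, (w 0).im, (w 1).re, (w 1).im, (w 2).re, (w 2).im, (w 3).re, (w 3).im]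
  map_add' x y := by
    ext i; fin_cases i <;> simp
  map_smul' r x := by
    ext i; fin_cases i <;> simp
  invFun u := ![⟨u 0, u 1⟩, ⟨u 2, u 3⟩, ⟨u 4, u 5⟩, ⟨u 6, u 7⟩]
  left_inv w := by
    ext i; fin_cases i <;> simp
  right_inv u := by
    ext i; fin_cases i <;> simp

/-- continuous real coordinates on `V` -/
def co : V ≃L[ℝ] R8 := coE.toContinuousLinearEquiv

theorem co_rb (i : Fin 8) : co (rb i) = eb i := by
  change ![(rb i 0).re, (rb i 0).im, (rb i 1).re, (rb i 1).im, (rb i 2).re, (rb i 2).im,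
    (rb i 3).re, (rb i 3).im] = eb i
  ext j
  fin_cases i <;> fin_cases j <;> simp [rb, Pi.single_apply, Fin.ext_iff]

theorem co_symm_eb (i : Fin 8) : co.symm (eb i) = rb i := by
  rw [← co_rb, co.symm_apply_apply]

/-- the bilinear form of a matrix, antisymmetrized -/
def frm0 (A : M8) : Alt 2 where
  toFun v := (1 / 2) * (co (v 0) ⬝ᵥ (A *ᵥ co (v 1)) - co (v 1) ⬝ᵥ (A *ᵥ co (v 0)))
  map_update_add' := by
    intro _ v i x y
    fin_cases i
    · simp [Function.update, Matrix.mulVec_add]
      ring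
    · simp [Function.update, Matrix.mulVec_add]
      ring
  map_update_smul' := by
    intro _ v i r x
    fin_cases i
    · simp [Function.update, Matrix.mulVec_smul]
      ring
    · simp [Function.update, Matrix.mulVec_smul]
      ring
  cont := by
    have h1 : ∀ i : Fin 2, Continuous fun v : Fin 2 → V => co (v i) := fun i =>
      co.continuous.comp (continuous_apply i)
    have h2 : ∀ i : Fin 2, Continuous fun v : Fin 2 → V => A *ᵥ co (v i) := fun i =>
      Continuous.matrix_mulVec continuous_const (h1 i)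
    exact continuous_const.mul (((h1 0).dotProduct (h2 1)).sub ((h1 1).dotProduct (h2 0)))
  map_eq_zero_of_eq' := by
    intro v i j h hij
    have : v 0 = v 1 := by
      fin_cases i <;> fin_cases j
      · exact absurd rfl hij
      · exact h
      · exact h.symm
      · exact absurd rfl hij
    change (1 / 2 : ℝ) * (co (v 0) ⬝ᵥ (A *ᵥ co (v 1)) - co (v 1) ⬝ᵥ (A *ᵥ co (v 0))) = 0
    rw [this]
    ring

theorem frm0_apply (A : M8) (v : Fin 2 → V) : frm0 A v =
    (1 / 2) * (co (v 0) ⬝ᵥ (A *ᵥ co (v 1)) - co (v 1) ⬝ᵥ (A *ᵥ co (v 0))) := rfl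

/-- the form as a linear function of the matrix -/
def frm : M8 →ₗ[ℝ] Alt 2 where
  toFun := frm0
  map_add' A B := by
    ext v
    rw [ContinuousAlternatingMap.add_apply, frm0_apply, frm0_apply, frm0_apply]
    simp only [Matrix.add_mulVec, dotProduct_add]
    ring
  map_smul' r A := by
    ext v
    rw [RingHom.id_apply, ContinuousAlternatingMap.smul_apply, frm0_apply, frm0_apply]
    simp only [Matrix.smul_mulVec, dotProduct_smul, smul_eq_mul]
    ring

theorem frm_continuous : Continuous (frm : M8 → Alt 2) :=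
  LinearMap.continuous_of_finiteDimensional frm

theorem frm_apply {A : M8} (hA : Aᵀ = -A) (x y : V) :
    frm A ![x, y] = co x ⬝ᵥ (A *ᵥ co y) := by
  change (1 / 2 : ℝ) * (co x ⬝ᵥ (A *ᵥ co y) - co y ⬝ᵥ (A *ᵥ co x)) = _
  have h := skew_dot hA (co x) (co y)
  rw [dotProduct_comm] at h
  rw [h]
  ring

/-- the matrix of a form -/
def mat (a : Alt 2) : M8 := Matrix.of fun i j => a ![rb i, rb j]

theorem alt_swap (a : Alt 2) (x y : V) : a ![x, y] = -a ![y, x] := by
  have h := a.toAlternatingMap.map_swap (v := ![x, y]) (i := 0) (j := 1) (by decide)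
  have e : (![x, y] ∘ (Equiv.swap (0 : Fin 2) 1) : Fin 2 → V) = ![y, x] := by
    funext i
    fin_cases i <;> simp
  rw [e] at h
  have h' : a ![y, x] = -a ![x, y] := h
  rw [h', neg_neg]

theorem mat_skew (a : Alt 2) : (mat a)ᵀ = -mat a := by
  ext i j
  exact alt_swap a _ _

theorem frm_mat (a : Alt 2) : frm (mat a) = a := by
  have h : (frm (mat a)).toAlternatingMap = a.toAlternatingMap := by
    refine Module.Basis.ext_alternating (Module.Basis.ofEquivFun coE) fun v _ => ?_
    have e : ∀ i : Fin 8, (Module.Basis.ofEquivFun coE) i = rb i := by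
      intro i
      rw [Module.Basis.coe_ofEquivFun]
      exact co_symm_eb i
    have e2 : (fun i => (Module.Basis.ofEquivFun coE) (v i)) = ![rb (v 0), rb (v 1)] := by
      funext i
      rw [e]
      fin_cases i <;> rfl
    rw [e2]
    change frm (mat a) ![rb (v 0), rb (v 1)] = a ![rb (v 0), rb (v 1)]
    rw [frm_apply (mat_skew a), co_rb, co_rb, Matrix.mulVec_single_one, single_one_dotProduct]
    rfl
  ext v
  exact congrArg (fun f : V [⋀^Fin 2]→ₗ[ℝ] ℝ => f v) h

theorem mat_continuous : Continuous mat := by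
  refine continuous_matrix fun i j => ?_
  exact (ContinuousAlternatingMap.apply ℝ V ℝ ![rb i, rb j]).continuous

/-- nondegenerate forms -/
def Nd (a : Alt 2) : Prop := ∀ u : V, (∀ v, a ![u, v] = 0) → u = 0

theorem nd_frm {A : M8} (hA : Aᵀ = -A) (h : ∀ x, A *ᵥ x = 0 → x = 0) : Nd (frm A) := by
  intro u hu
  have h1 : A *ᵥ co u = 0 := by
    refine dotProduct_eq_zero _ fun w => ?_
    have h2 := hu (co.symm w)
    rw [frm_apply hA, co.apply_symm_apply] at h2
    rw [skew_dot hA, h2, neg_zero]
  have h3 := h _ h1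
  exact co.injective (by rw [h3, map_zero])

theorem det_of_nd {a : Alt 2} (h : Nd a) : (mat a).det ≠ 0 := by
  intro h0
  obtain ⟨x, hx0, hx⟩ := Matrix.exists_mulVec_eq_zero_iff.2 h0
  apply hx0
  have h1 : co.symm x = 0 := by
    apply h
    intro v
    rw [alt_swap, ← frm_mat a, frm_apply (mat_skew a), co.apply_symm_apply, hx, dotProduct_zero,
      neg_zero]
  have h2 := congrArg co h1
  rwa [co.apply_symm_apply, map_zero] at h2

section

variable (hp : PowProps)

include hp

theorem sgn {X : Type} [TopologicalSpace X] [PreconnectedSpace X] {γ : X → Alt 2}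
    (hγ : Continuous γ) (hnd : ∀ x, Nd (γ x)) {x0 : X} (h0 : pow4 (γ x0) rb < 0) (x : X) :
    pow4 (γ x) rb < 0 := by
  by_contra hcon
  push Not at hcon
  obtain ⟨y, hy⟩ := mem_range_of_exists_le_of_exists_ge (hp.cont.comp hγ) ⟨x0, h0.le⟩ ⟨x, hcon⟩
  exact (hp.nondeg (γ y)).2 (hnd y) hy

theorem homotNeg {X : Type} [TopologicalSpace X] (f : C(X, NegForm)) (H : C(I × X, Alt 2))
    (hnd : ∀ q, Nd (H q)) (h0 : ∀ x, H (0, x) = (f x).1) :
    ∃ g : C(X, NegForm), (∀ x, (g x).1 = H (1, x)) ∧ f.Homotopic g := by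
  have hneg : ∀ q, pow4 (H q) rb < 0 := by
    rintro ⟨t, x⟩
    have hγ : Continuous fun s : I => H (s, x) := by fun_prop
    refine sgn hp hγ (fun s => hnd _) (x0 := 0) ?_ t
    rw [h0]
    exact (f x).2
  let K : C(I × X, NegForm) := ⟨fun q => ⟨H q, hneg q⟩, Continuous.subtype_mk H.continuous _⟩
  refine ⟨⟨fun x => K (1, x), by fun_prop⟩, fun x => rfl, ⟨⟨K, fun x => ?_, fun x => rfl⟩⟩⟩
  exact Subtype.ext (h0 x)

theorem nd_of_neg {a : Alt 2} (h : pow4 a rb < 0) : Nd a := (hp.nondeg a).1 h.ne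

/-- conjugation -/
theorem frm_conj {A : M8} (hA : Aᵀ = -A) (r : M8) :
    pow4 (frm (rᵀ * A * r)) rb = r.det * pow4 (frm A) rb := by
  let L0 : V →ₗ[ℝ] V := (co.symm.toLinearEquiv : R8 →ₗ[ℝ] V).comp
    ((Matrix.mulVecLin r).comp (co.toLinearEquiv : V →ₗ[ℝ] R8))
  let L : V →L[ℝ] V := LinearMap.toContinuousLinearMap L0
  have hL : ∀ v, co (L v) = r *ᵥ co v := fun v => co.apply_symm_apply _
  have hdet : L.det = r.det := by
    have h1 : L.det = LinearMap.det L0 := rfl
    rw [h1, ← LinearMap.det_toLin']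
    exact LinearMap.det_conj (Matrix.toLin' r) co.symm.toLinearEquiv
  have hA' : (rᵀ * A * r)ᵀ = -(rᵀ * A * r) := by
    simp only [Matrix.transpose_mul, Matrix.transpose_transpose, hA]
    simp [mul_assoc]
  have e : frm (rᵀ * A * r) = (frm A).compContinuousLinearMap L := by
    have h : (frm (rᵀ * A * r)).toAlternatingMap =
        ((frm A).compContinuousLinearMap L).toAlternatingMap := by
      refine Module.Basis.ext_alternating (Module.Basis.ofEquivFun coE) fun v _ => ?_
      have e2 : (fun i => (Module.Basis.ofEquivFun coE) (v i)) =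
          ![(Module.Basis.ofEquivFun coE) (v 0), (Module.Basis.ofEquivFun coE) (v 1)] := by
        funext i
        fin_cases i <;> rfl
      rw [e2]
      generalize (Module.Basis.ofEquivFun coE) (v 0) = x
      generalize (Module.Basis.ofEquivFun coE) (v 1) = y
      change frm (rᵀ * A * r) ![x, y] = frm A (L ∘ ![x, y])
      have e3 : (L ∘ ![x, y] : Fin 2 → V) = ![L x, L y] := by
        funext i
        fin_cases i <;> rfl
      rw [e3, frm_apply hA', frm_apply hA, hL, hL, Matrix.mulVec_mulVec, dot_mulVec, mul_assoc]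
    ext v
    exact congrArg (fun f : V [⋀^Fin 2]→ₗ[ℝ] ℝ => f v) h
  rw [e, ← hdet]
  exact hp.comp _ _ _ _ L

end

end Pool.Agent.TH874.SD
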