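import Pool.Agent.TH874.SD.Form

/-!
The form of a pair of vectors of the half spin representation.
-/

set_option autoImplicit false
set_option linter.unusedSimpArgs false
set_option linter.unusedSectionVars false

noncomputable section

namespace Pool.Agent.TH874.SD

open Matrix Pool.Agent.TH179.SD Metric Module
open scoped unitInterval

/-- the matrix of the pair `(x, y)` -/
def Kmat (c : R8 →ₗ[ℝ] M8) (p : R8 × R8) : M8 := Matrix.of fun i j =>
  (c (eb i) *ᵥ p.1) ⬝ᵥ (c (eb j) *ᵥ p.2) - (c (eb i) *ᵥ p.2) ⬝ᵥ (c (eb j) *ᵥ p.1)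

theorem Kmat_continuous (c : R8 →ₗ[ℝ] M8) : Continuous (Kmat c) := by
  refine continuous_matrix fun i j => ?_
  have h1 : ∀ i, Continuous fun p : R8 × R8 => c (eb i) *ᵥ p.1 := fun i =>
    Continuous.matrix_mulVec continuous_const continuous_fst
  have h2 : ∀ i, Continuous fun p : R8 × R8 => c (eb i) *ᵥ p.2 := fun i =>
    Continuous.matrix_mulVec continuous_const continuous_snd
  exact ((h1 i).dotProduct (h2 j)).sub ((h2 i).dotProduct (h1 j))

theorem Kmat_skew (c : R8 →ₗ[ℝ] M8) (p : R8 × R8) : (Kmat c p)ᵀ = -Kmat c p := by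
  ext i j
  change (c (eb j) *ᵥ p.1) ⬝ᵥ (c (eb i) *ᵥ p.2) - (c (eb j) *ᵥ p.2) ⬝ᵥ (c (eb i) *ᵥ p.1) =
    -((c (eb i) *ᵥ p.1) ⬝ᵥ (c (eb j) *ᵥ p.2) - (c (eb i) *ᵥ p.2) ⬝ᵥ (c (eb j) *ᵥ p.1))
  rw [dotProduct_comm (c (eb j) *ᵥ p.1), dotProduct_comm (c (eb j) *ᵥ p.2)]
  ring

/-- evaluation of `c` at a vector, as a linear map -/
def ev (c : R8 →ₗ[ℝ] M8) (x : R8) : R8 →ₗ[ℝ] R8 :=
  (LinearMap.applyₗ x).comp ((Matrix.mulVecBilin ℝ ℝ).comp c)

theorem ev_apply (c : R8 →ₗ[ℝ] M8) (x u : R8) : ev c x u = c u *ᵥ x := rfl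

theorem Kmat_apply (c : R8 →ₗ[ℝ] M8) (p : R8 × R8) (u v : R8) : u ⬝ᵥ (Kmat c p *ᵥ v) =
    (c u *ᵥ p.1) ⬝ᵥ (c v *ᵥ p.2) - (c u *ᵥ p.2) ⬝ᵥ (c v *ᵥ p.1) := by
  let dp : R8 →ₗ[ℝ] R8 →ₗ[ℝ] ℝ := LinearMap.mk₂ ℝ (fun x y : R8 => x ⬝ᵥ y)
    (fun _ _ _ => add_dotProduct _ _ _) (fun _ _ _ => smul_dotProduct _ _ _)
    (fun _ _ _ => dotProduct_add _ _ _) (fun _ _ _ => dotProduct_smul _ _ _)
  let f : R8 →ₗ[ℝ] R8 →ₗ[ℝ] ℝ := dp.compl₁₂ LinearMap.id (Matrix.mulVecLin (Kmat c p))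
  let g : R8 →ₗ[ℝ] R8 →ₗ[ℝ] ℝ := dp.compl₁₂ (ev c p.1) (ev c p.2) -
    dp.compl₁₂ (ev c p.2) (ev c p.1)
  have hfg : f = g := by
    refine lin_ext fun i => lin_ext fun j => ?_
    change eb i ⬝ᵥ (Kmat c p *ᵥ eb j) = (c (eb i) *ᵥ p.1) ⬝ᵥ (c (eb j) *ᵥ p.2) -
      (c (eb i) *ᵥ p.2) ⬝ᵥ (c (eb j) *ᵥ p.1)
    rw [Matrix.mulVec_single_one, single_one_dotProduct]
    rfl
  exact congrArg (fun h : R8 →ₗ[ℝ] R8 →ₗ[ℝ] ℝ => h u v) hfg

theorem ev_surj {c : R8 →ₗ[ℝ] M8} (hc : IsComp c) {x : R8} (hx : x ≠ 0) :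
    Function.Surjective (ev c x) := by
  rw [← LinearMap.injective_iff_surjective, ← LinearMap.ker_eq_bot, LinearMap.ker_eq_bot']
  intro q hq
  rw [ev_apply] at hq
  have h3 := hc.norm q x
  rw [hq, zero_dotProduct] at h3
  rcases mul_eq_zero.1 h3.symm with h4 | h4
  · exact dotProduct_self_eq_zero.1 h4
  · exact absurd (dotProduct_self_eq_zero.1 h4) hx

theorem LI.fst_ne {p : R8 × R8} (hp : LI R8 p) : p.1 ≠ 0 := fun h => by
  have := (hp 1 0 (by rw [h]; simp)).1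
  exact one_ne_zero this

theorem Kmat_nd {c : R8 →ₗ[ℝ] M8} (hc : IsComp c) {p : R8 × R8} (hp : LI R8 p) (x : R8)
    (hx : Kmat c p *ᵥ x = 0) : x = 0 := by
  have h1 := LI.fst_ne hp
  have h11 : p.1 ⬝ᵥ p.1 ≠ 0 := fun h => h1 (dotProduct_self_eq_zero.1 h)
  set s : ℝ := (p.1 ⬝ᵥ p.2) / (p.1 ⬝ᵥ p.1) with hs
  have hy : p.2 - s • p.1 ≠ 0 := by
    intro h
    have h2 := (hp (-s) 1 (by rw [one_smul, neg_smul, add_comm, ← sub_eq_add_neg, h])).2
    exact one_ne_zero h2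
  have key : ∀ v : R8, (c v *ᵥ p.1) ⬝ᵥ (c x *ᵥ (p.2 - s • p.1)) = 0 := by
    intro v
    have h2 := Kmat_apply c p v x
    rw [hx, dotProduct_zero] at h2
    have h3 := hc.star v x p.1 p.2
    have h4 := hc.star v x p.1 p.1
    have h5 : (c x *ᵥ p.1) ⬝ᵥ (c v *ᵥ p.2) = (c v *ᵥ p.2) ⬝ᵥ (c x *ᵥ p.1) := dotProduct_comm _ _
    have h6 : (c x *ᵥ p.1) ⬝ᵥ (c v *ᵥ p.1) = (c v *ᵥ p.1) ⬝ᵥ (c x *ᵥ p.1) := dotProduct_comm _ _
    rw [Matrix.mulVec_sub, Matrix.mulVec_smul, dotProduct_sub, dotProduct_smul, smul_eq_mul]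
    rw [h5] at h3
    rw [h6] at h4
    have h7 : (c v *ᵥ p.1) ⬝ᵥ (c x *ᵥ p.1) = (v ⬝ᵥ x) * (p.1 ⬝ᵥ p.1) := by linarith
    have h8 : (c v *ᵥ p.1) ⬝ᵥ (c x *ᵥ p.2) = (v ⬝ᵥ x) * (p.1 ⬝ᵥ p.2) := by linarith
    rw [h7, h8, hs]
    field_simp
    ring
  obtain ⟨v, hv⟩ := ev_surj hc h1 (c x *ᵥ (p.2 - s • p.1))
  have h2 := key v
  rw [ev_apply] at hv
  rw [hv] at h2
  have h3 := hc.norm x (p.2 - s • p.1)
  rw [h2] at h3
  rcases mul_eq_zero.1 h3.symm with h4 | h4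
  · exact dotProduct_self_eq_zero.1 h4
  · exact absurd (dotProduct_self_eq_zero.1 h4) hy

/-- the space of pairs is connected -/
theorem St2_pre : PreconnectedSpace (St2 R8) := by
  have hj : ∀ p q : St2 R8, Joined p q := by
    intro p q
    let f : C(sphere (0 : ℝ) 1, St2 R8) := ⟨fun x => if 0 < (x : ℝ) then p else q, by
      refine IsLocallyConstant.continuous ?_
      refine (IsLocallyConstant.iff_exists_open _).2 fun x => ?_
      have hx : |(x : ℝ)| = 1 := by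
        have := x.2
        rwa [mem_sphere_zero_iff_norm] at this
      by_cases h : 0 < (x : ℝ)
      · refine ⟨{y | 0 < (y : ℝ)}, isOpen_lt continuous_const continuous_subtype_val, h,
          fun y hy => ?_⟩
        have hy' : 0 < (y : ℝ) := hy
        rw [if_pos hy', if_pos h]
      · refine ⟨{y | (y : ℝ) < 0}, isOpen_lt continuous_subtype_val continuous_const, ?_,
          fun y hy => ?_⟩
        · have h0 : (x : ℝ) ≠ 0 := fun h0 => by
            rw [h0, abs_zero] at hx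
            exact zero_ne_one hx
          exact lt_of_le_of_ne (not_lt.1 h) h0
        · have hy' : ¬ 0 < (y : ℝ) := not_lt.2 (le_of_lt hy)
          rw [if_neg hy', if_neg h]⟩
    have hd : finrank ℝ ℝ + 1 < finrank ℝ R8 := by simp
    obtain ⟨y, ⟨H⟩⟩ := nullSt hd f
    let one' : sphere (0 : ℝ) 1 := ⟨1, by simp⟩
    let mone : sphere (0 : ℝ) 1 := ⟨-1, by simp⟩
    have h1 : Joined p y := ⟨⟨⟨fun t => H (t, one'), by fun_prop⟩, by
      change H (0, one') = p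
      rw [H.apply_zero]
      change (if 0 < (1 : ℝ) then p else q) = p
      simp, by
      change H (1, one') = y
      rw [H.apply_one]; rfl⟩⟩
    have h2 : Joined q y := ⟨⟨⟨fun t => H (t, mone), by fun_prop⟩, by
      change H (0, mone) = q
      rw [H.apply_zero]
      change (if 0 < (-1 : ℝ) then p else q) = q
      rw [if_neg (by norm_num)], by
      change H (1, mone) = y
      rw [H.apply_one]; rfl⟩⟩
    exact h1.trans h2.symm
  have hne : Nonempty (St2 R8) := ⟨⟨(eb 0, eb 1), by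
    intro a b h
    have h0 := congrFun h 0
    have h1 := congrFun h 1
    simp at h0 h1
    exact ⟨h0, h1⟩⟩⟩
  have : PathConnectedSpace (St2 R8) := ⟨hne, hj⟩
  infer_instance

/-- the octonions -/
def octL : R8 →ₗ[ℝ] M8 where
  toFun u := ∑ i, u i • (octZ i).map (Int.cast : ℤ → ℝ)
  map_add' u v := by
    simp only [Pi.add_apply, add_smul, Finset.sum_add_distrib]
  map_smul' r u := by
    simp only [Pi.smul_apply, smul_eq_mul, mul_smul, Finset.smul_sum, RingHom.id_apply]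

theorem octL_comp : IsComp octL := by
  intro u v
  have h : ∀ i j : Fin 8, ((octZ i).map (Int.cast : ℤ → ℝ))ᵀ * (octZ j).map (Int.cast : ℤ → ℝ) +
      ((octZ j).map (Int.cast : ℤ → ℝ))ᵀ * (octZ i).map (Int.cast : ℤ → ℝ) =
      (2 * (eb i ⬝ᵥ eb j)) • (1 : M8) := by
    intro i j
    have h1 := congrArg (fun A : Matrix (Fin 8) (Fin 8) ℤ => A.map (Int.castRingHom ℝ))
      (octZ_rel i j)
    simp only [Matrix.map_add _ (map_add (Int.castRingHom ℝ)), Matrix.map_mul] at h1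
    rw [eb_dot]
    have h2 : ((if i = j then 2 else 0 : Matrix (Fin 8) (Fin 8) ℤ)).map (Int.castRingHom ℝ) =
        (2 * (if i = j then (1 : ℝ) else 0)) • (1 : M8) := by
      split_ifs with hij
      · ext a b
        by_cases hab : a = b
        · subst hab
          simp [Matrix.map_apply, Matrix.ofNat_apply]
        · simp [Matrix.map_apply, Matrix.ofNat_apply, hab]
      · ext a b
        simp
    rw [← h2, ← h1]
    rfl
  change (∑ i, u i • (octZ i).map (Int.cast : ℤ → ℝ))ᵀ * (∑ j, v j • (octZ j).map (Int.cast : ℤ → ℝ)) +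
    (∑ i, v i • (octZ i).map (Int.cast : ℤ → ℝ))ᵀ * (∑ j, u j • (octZ j).map (Int.cast : ℤ → ℝ)) = _
  rw [Matrix.transpose_sum, Matrix.transpose_sum, Finset.sum_mul_sum, Finset.sum_mul_sum]
  conv_lhs => rw [Finset.sum_comm (s := Finset.univ) (t := Finset.univ)
    (f := fun i j => (v i • (octZ i).map (Int.cast : ℤ → ℝ))ᵀ *
      (u j • (octZ j).map (Int.cast : ℤ → ℝ)))]
  rw [← Finset.sum_add_distrib]
  have h3 : ∀ i, (∑ j, (u i • (octZ i).map (Int.cast : ℤ → ℝ))ᵀ *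
        (v j • (octZ j).map (Int.cast : ℤ → ℝ)) +
      ∑ j, (v j • (octZ j).map (Int.cast : ℤ → ℝ))ᵀ *
        (u i • (octZ i).map (Int.cast : ℤ → ℝ))) = (2 * (u i * v i)) • (1 : M8) := by
    intro i
    rw [← Finset.sum_add_distrib]
    have h4 : ∀ j, (u i • (octZ i).map (Int.cast : ℤ → ℝ))ᵀ *
        (v j • (octZ j).map (Int.cast : ℤ → ℝ)) +
      (v j • (octZ j).map (Int.cast : ℤ → ℝ))ᵀ * (u i • (octZ i).map (Int.cast : ℤ → ℝ)) =
      (u i * v j * (2 * (eb i ⬝ᵥ eb j))) • (1 : M8) := by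
      intro j
      rw [Matrix.transpose_smul, Matrix.transpose_smul, smul_mul_smul_comm, smul_mul_smul_comm,
        mul_comm (v j) (u i), ← smul_add, h, smul_smul]
    rw [Finset.sum_congr rfl fun j _ => h4 j, Finset.sum_eq_single i]
    · rw [eb_dot, if_pos rfl]
      congr 1
      ring
    · intro j _ hj
      rw [eb_dot, if_neg hj.symm]
      simp
    · simp
  rw [Finset.sum_congr rfl fun i _ => h3 i, ← Finset.sum_smul]
  congr 1
  rw [← Finset.mul_sum]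
  rfl

end Pool.Agent.TH874.SD
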